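import Pool.Agent.TH598.GV.Defs

/-!
# The double alternating sum of a tensor which respects a splitting `3 + 3`: combinatorics
-/

set_option autoImplicit false

namespace Pool.Agent.K1H56.HB3

open Finset Pool.Agent.TH598.GV

/-- indices; the second component says to which summand the index belongs -/
abbrev I3 : Type := Fin 3 × Bool

/-- permutations of three letters -/
abbrev S3 : Type := Equiv.Perm (Fin 3)

/-- weight of an ordered pair -/
noncomputable def u (i j : I3) : ℂ := if i.2 = j.2 then 1 / 2 else if j.2 then 1 else 0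

lemma u_add (i j : I3) : u i j + u j i = 1 := by
  obtain ⟨a, c⟩ := i
  obtain ⟨b, d⟩ := j
  cases c <;> cases d <;> simp [u] <;> norm_num

/-- flips of some of the three pairs of positions -/
def fl (φ : Fin 3 → Bool) : Equiv.Perm I3 :=
  Equiv.prodCongrRight fun b => if φ b then Equiv.swap false true else 1

lemma fl_sign (φ : Fin 3 → Bool) : cs (fl φ) = ∏ b, (if φ b then (-1 : ℂ) else 1) := by
  unfold cs fl
  rw [Equiv.Perm.sign_prodCongrRight]
  push_cast
  refine Finset.prod_congr rfl fun b _ => ?_
  cases h : φ b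
  · simp
  · simp [Equiv.Perm.sign_swap]

lemma cs_mul {P : Type} [Fintype P] [DecidableEq P] (σ τ : Equiv.Perm P) :
    cs (σ * τ) = cs σ * cs τ := by
  unfold cs
  rw [Equiv.Perm.sign_mul]
  push_cast
  rfl

lemma cs_sq {P : Type} [Fintype P] [DecidableEq P] (σ : Equiv.Perm P) : cs σ * cs σ = 1 := by
  unfold cs
  rcases Int.units_eq_one_or (Equiv.Perm.sign σ) with h | h <;> rw [h] <;> simp

/-- The sum over permutations of a product of alternating functions may be weighted by `u`. -/
lemma flip (h : Fin 3 → I3 → I3 → ℂ) (halt : ∀ b i j, h b j i = - h b i j) :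
    ∑ σ : Equiv.Perm I3, cs σ * ∏ b, h b (σ (b, false)) (σ (b, true)) =
      8 * ∑ σ : Equiv.Perm I3, cs σ *
        ∏ b, (u (σ (b, false)) (σ (b, true)) * h b (σ (b, false)) (σ (b, true))) := by
  classical
  have key : ∀ φ : Fin 3 → Bool, ∑ σ : Equiv.Perm I3, cs σ *
        ∏ b, (u (σ (b, false)) (σ (b, true)) * h b (σ (b, false)) (σ (b, true))) =
      ∑ σ : Equiv.Perm I3, cs σ * ∏ b, ((if φ b then u (σ (b, true)) (σ (b, false))
        else u (σ (b, false)) (σ (b, true))) * h b (σ (b, false)) (σ (b, true))) := by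
    intro φ
    rw [← Equiv.sum_comp (Equiv.mulRight (fl φ))]
    refine Finset.sum_congr rfl fun σ _ => ?_
    rw [Equiv.coe_mulRight, cs_mul, fl_sign, mul_assoc, ← Finset.prod_mul_distrib]
    congr 1
    refine Finset.prod_congr rfl fun b _ => ?_
    simp only [Equiv.Perm.mul_apply]
    cases hb : φ b
    · have e1 : fl φ (b, false) = (b, false) := by simp [fl, hb]
      have e2 : fl φ (b, true) = (b, true) := by simp [fl, hb]
      rw [e1, e2]
      simp
    · have e1 : fl φ (b, false) = (b, true) := by simp [fl, hb]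
      have e2 : fl φ (b, true) = (b, false) := by simp [fl, hb]
      rw [e1, e2, halt]
      simp
  have h8 : (8 : ℂ) * ∑ σ : Equiv.Perm I3, cs σ *
        ∏ b, (u (σ (b, false)) (σ (b, true)) * h b (σ (b, false)) (σ (b, true))) =
      ∑ _φ : Fin 3 → Bool, ∑ σ : Equiv.Perm I3, cs σ *
        ∏ b, (u (σ (b, false)) (σ (b, true)) * h b (σ (b, false)) (σ (b, true))) := by
    rw [Finset.sum_const, Finset.card_univ]
    simp
  rw [h8, Finset.sum_congr rfl fun φ _ => key φ, Finset.sum_comm]
  refine Finset.sum_congr rfl fun σ _ => ?_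
  rw [← Finset.mul_sum]
  congr 1
  have h3 := Finset.prod_univ_sum (ι := Fin 3) (κ := fun _ => Bool)
    (t := fun _ => Finset.univ)
    (f := fun b c => (if c then u (σ (b, true)) (σ (b, false))
        else u (σ (b, false)) (σ (b, true))) * h b (σ (b, false)) (σ (b, true)))
  rw [Fintype.piFinset_univ] at h3
  rw [← h3]
  refine Finset.prod_congr rfl fun b _ => ?_
  rw [Fintype.sum_bool]
  simp only [if_true, Bool.false_eq_true, if_false]
  rw [← add_mul, add_comm, u_add, one_mul]

/-- permutations which preserve the two summands -/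
def fp (p : S3 × S3) : Equiv.Perm I3 :=
  Equiv.prodCongrLeft fun c : Bool => if c then p.2 else p.1

lemma fp_false (p : S3 × S3) (i : Fin 3) : fp p (i, false) = (p.1 i, false) := by
  simp [fp]

lemma fp_true (p : S3 × S3) (i : Fin 3) : fp p (i, true) = (p.2 i, true) := by
  simp [fp]

lemma fp_snd (p : S3 × S3) (x : I3) : (fp p x).2 = x.2 := by
  obtain ⟨i, c⟩ := x
  cases c
  · rw [fp_false]
  · rw [fp_true]

lemma fp_sign (p : S3 × S3) : cs (fp p) = cs p.1 * cs p.2 := by
  unfold cs fp
  rw [Equiv.Perm.sign_prodCongrLeft]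
  rw [Fintype.prod_bool]
  simp only [if_true, Bool.false_eq_true, if_false]
  push_cast
  ring

lemma fp_inj : Function.Injective fp := by
  intro p q h
  refine Prod.ext ?_ ?_
  · ext i
    have h1 := congrArg (fun σ : Equiv.Perm I3 => σ (i, false)) h
    simp only [fp_false] at h1
    exact congrArg Fin.val (Prod.ext_iff.1 h1).1
  · ext i
    have h1 := congrArg (fun σ : Equiv.Perm I3 => σ (i, true)) h
    simp only [fp_true] at h1
    exact congrArg Fin.val (Prod.ext_iff.1 h1).1

lemma exists_fp (σ : Equiv.Perm I3) (h : ∀ x, (σ x).2 = x.2) : ∃ p, fp p = σ := by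
  have hinj : ∀ c, Function.Injective fun i : Fin 3 => (σ (i, c)).1 := by
    intro c i j hij
    have h1 : σ (i, c) = σ (j, c) := by
      refine Prod.ext hij ?_
      rw [h, h]
    exact (Prod.ext_iff.1 (σ.injective h1)).1
  let e : Bool → S3 := fun c => Equiv.ofBijective _ (Finite.injective_iff_bijective.1 (hinj c))
  refine ⟨(e false, e true), ?_⟩
  ext x
  · obtain ⟨i, c⟩ := x
    cases c
    · rw [fp_false]; rfl
    · rw [fp_true]; rfl
  · obtain ⟨i, c⟩ := x
    rw [fp_snd, h]

/-- the representatives of the seven relevant ways to distribute the positions -/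
def Th : Option S3 → Equiv.Perm I3
  | none => 1
  | some π => Equiv.swap (0, true) (1, false) * Equiv.prodCongr π⁻¹ (Equiv.refl Bool)

lemma Th_surj : ∀ ty : I3 → Bool, (Finset.univ.filter fun x => ty x = true).card = 3 →
    (∀ b, ¬ (ty (b, false) = true ∧ ty (b, true) = false)) →
    ∃ k : Option S3, ∀ x, ty x = (Th k x).2 := by
  decide +kernel

lemma Th_inj : ∀ k k' : Option S3, (∀ x, (Th k x).2 = (Th k' x).2) → k = k' := by
  decide +kernel

lemma type_card (σ : Equiv.Perm I3) :
    (Finset.univ.filter fun x : I3 => (σ x).2 = true).card = 3 := by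
  have h : (Finset.univ.filter fun x : I3 => (σ x).2 = true) =
      (Finset.univ.filter fun x : I3 => x.2 = true).map σ⁻¹.toEmbedding := by
    ext x
    simp only [Finset.mem_filter, Finset.mem_univ, true_and, Finset.mem_map,
      Equiv.coe_toEmbedding]
    constructor
    · intro hx
      exact ⟨σ x, hx, by simp⟩
    · rintro ⟨y, hy, rfl⟩
      simpa using hy
  rw [h, Finset.card_map]
  decide

/-- A sum over the permutations which is supported on the seven classes. -/
lemma sum7 (f : Equiv.Perm I3 → ℂ)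
    (hf : ∀ σ, f σ ≠ 0 → ∃ k, ∀ x, (σ x).2 = (Th k x).2) :
    ∑ σ, f σ = ∑ k : Option S3, ∑ p : S3 × S3, f (fp p * Th k) := by
  classical
  rw [← Fintype.sum_prod_type (fun x : Option S3 × (S3 × S3) => f (fp x.2 * Th x.1))]
  symm
  refine Finset.sum_of_injOn (fun x : Option S3 × (S3 × S3) => fp x.2 * Th x.1) ?_
    (fun _ _ => Finset.mem_coe.2 (Finset.mem_univ _)) ?_ (fun _ _ => rfl)
  · rintro ⟨k, p⟩ _ ⟨k', p'⟩ _ h
    simp only at h
    have h1 : k = k' := by
      refine Th_inj k k' fun x => ?_
      have h2 := congrArg (fun σ : Equiv.Perm I3 => (σ x).2) h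
      simpa only [Equiv.Perm.mul_apply, fp_snd] using h2
    subst h1
    have h2 := fp_inj (mul_right_cancel h)
    rw [h2]
  · intro σ _ hσ
    by_contra hne
    apply hσ
    obtain ⟨k, hk⟩ := hf σ hne
    obtain ⟨p, hp⟩ := exists_fp (σ * (Th k)⁻¹) (fun x => by
      rw [Equiv.Perm.mul_apply, hk]
      simp)
    exact ⟨(k, p), Finset.mem_coe.2 (Finset.mem_univ _), by simp [hp]⟩

end Pool.Agent.K1H56.HB3
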