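import Pool.Agent.K1H56.HB3.Comb
import Pool.Agent.H864R3.Chern3

/-!
# The double alternating sum of a tensor which respects a splitting `3 + 3`: the two parts
-/

set_option autoImplicit false

namespace Pool.Agent.K1H56.HB3

open Finset Pool.Agent.TH598.GV
open scoped ComplexConjugate ComplexOrder

/-- `H` respects the splitting of the index set into the indices with second component `false` and
those with second component `true`. -/
def Blk (H : I3 → I3 → I3 → I3 → ℂ) : Prop :=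
  ∀ i j k l, H i j k l ≠ 0 → (i.2 = k.2 ∧ j.2 = l.2) ∨ (i.2 = l.2 ∧ j.2 = k.2)

/-- the weighted terms -/
noncomputable def GT (H : I3 → I3 → I3 → I3 → ℂ) (σ τ : Equiv.Perm I3) : ℂ :=
  cs σ * cs τ * ∏ b : Fin 3, (u (σ (b, false)) (σ (b, true)) * u (τ (b, false)) (τ (b, true)) *
    H (σ (b, false)) (σ (b, true)) (τ (b, false)) (τ (b, true)))

lemma alt2 {H : I3 → I3 → I3 → I3 → ℂ} (hH : HS H) (i j k l : I3) :
    H i j l k = - H i j k l := by
  rw [hH.herm l k i j, hH.herm k l i j, hH.alt k l i j, map_neg]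

lemma GG_GT {H : I3 → I3 → I3 → I3 → ℂ} (hH : HS H) :
    GG H = 64 * ∑ σ, ∑ τ, GT H σ τ := by
  have h1 : GG H = 8 * ∑ τ : Equiv.Perm I3, cs τ * ∑ σ : Equiv.Perm I3, cs σ *
      ∏ b : Fin 3, (u (τ (b, false)) (τ (b, true)) *
        H (σ (b, false)) (σ (b, true)) (τ (b, false)) (τ (b, true))) := by
    have e : GG H = ∑ σ : Equiv.Perm I3, cs σ * (8 * ∑ τ : Equiv.Perm I3, cs τ *
        ∏ b : Fin 3, (u (τ (b, false)) (τ (b, true)) *
        H (σ (b, false)) (σ (b, true)) (τ (b, false)) (τ (b, true)))) := by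
      unfold GG
      refine Finset.sum_congr rfl fun σ _ => ?_
      rw [← flip (fun b k l => H (σ (b, false)) (σ (b, true)) k l)
        (fun b i j => alt2 hH _ _ _ _), Finset.mul_sum]
      exact Finset.sum_congr rfl fun τ _ => by ring
    rw [e]
    simp only [Finset.mul_sum]
    rw [Finset.sum_comm]
    exact Finset.sum_congr rfl fun τ _ => Finset.sum_congr rfl fun σ _ => by ring
  rw [h1]
  have h2 : ∀ τ : Equiv.Perm I3, ∑ σ : Equiv.Perm I3, cs σ *
      ∏ b : Fin 3, (u (τ (b, false)) (τ (b, true)) *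
        H (σ (b, false)) (σ (b, true)) (τ (b, false)) (τ (b, true))) =
      8 * ∑ σ : Equiv.Perm I3, cs σ * ∏ b : Fin 3, (u (σ (b, false)) (σ (b, true)) *
        (u (τ (b, false)) (τ (b, true)) *
        H (σ (b, false)) (σ (b, true)) (τ (b, false)) (τ (b, true)))) := fun τ =>
    flip (fun b i j => u (τ (b, false)) (τ (b, true)) * H i j (τ (b, false)) (τ (b, true)))
      (fun b i j => by rw [hH.alt]; ring)
  simp only [h2, Finset.mul_sum]
  rw [Finset.sum_comm]
  refine Finset.sum_congr rfl fun σ _ => Finset.sum_congr rfl fun τ _ => ?_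
  unfold GT
  simp only [mul_assoc]
  ring

lemma u_ne {i j : I3} (h : u i j ≠ 0) : ¬ (i.2 = true ∧ j.2 = false) := by
  rintro ⟨h1, h2⟩
  apply h
  simp [u, h1, h2]

lemma GT_types {H : I3 → I3 → I3 → I3 → ℂ} (hB : Blk H) {σ τ : Equiv.Perm I3}
    (h : GT H σ τ ≠ 0) :
    (∀ b, ¬ ((σ (b, false)).2 = true ∧ (σ (b, true)).2 = false)) ∧
      ∀ x, (τ x).2 = (σ x).2 := by
  have h1 : ∀ b : Fin 3, u (σ (b, false)) (σ (b, true)) ≠ 0 ∧
      u (τ (b, false)) (τ (b, true)) ≠ 0 ∧
      H (σ (b, false)) (σ (b, true)) (τ (b, false)) (τ (b, true)) ≠ 0 := by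
    intro b
    have h2 := (Finset.prod_ne_zero_iff.1 (right_ne_zero_of_mul h)) b (Finset.mem_univ b)
    refine ⟨left_ne_zero_of_mul (left_ne_zero_of_mul h2),
      right_ne_zero_of_mul (left_ne_zero_of_mul h2), right_ne_zero_of_mul h2⟩
  refine ⟨fun b => u_ne (h1 b).1, ?_⟩
  rintro ⟨b, c⟩
  obtain ⟨ha, hb, hc⟩ := h1 b
  have ha' := u_ne ha
  have hb' := u_ne hb
  rcases hB _ _ _ _ hc with ⟨e1, e2⟩ | ⟨e1, e2⟩
  · cases c
    · exact e1.symm
    · exact e2.symm
  · cases hs : (σ (b, false)).2 <;> cases hs' : (σ (b, true)).2 <;>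
      rw [hs] at ha' e1 <;> rw [hs'] at ha' e2
    · cases c
      · rw [← e2, hs]
      · rw [← e1, hs']
    · exact absurd ⟨e2.symm, e1.symm⟩ hb'
    · exact absurd ⟨rfl, rfl⟩ ha'
    · cases c
      · rw [← e2, hs]
      · rw [← e1, hs']

lemma sum_GT {H : I3 → I3 → I3 → I3 → ℂ} (hB : Blk H) :
    ∑ σ, ∑ τ, GT H σ τ = ∑ k : Option S3, ∑ p : S3 × S3, ∑ p' : S3 × S3,
      GT H (fp p * Th k) (fp p' * Th k) := by
  rw [sum7 (fun σ => ∑ τ, GT H σ τ) ?_]
  · refine Finset.sum_congr rfl fun k _ => Finset.sum_congr rfl fun p _ => ?_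
    rw [sum7 (fun τ => GT H (fp p * Th k) τ) ?_]
    · refine Finset.sum_eq_single k (fun k' _ hk' => ?_) (fun h => absurd (Finset.mem_univ _) h)
      refine Finset.sum_eq_zero fun p' _ => ?_
      by_contra hne
      apply hk'
      refine Th_inj k' k fun x => ?_
      have h2 := (GT_types hB hne).2 x
      simpa only [Equiv.Perm.mul_apply, fp_snd] using h2
    · intro τ hτ
      refine ⟨k, fun x => ?_⟩
      have h2 := (GT_types hB hτ).2 x
      rw [h2]
      simp only [Equiv.Perm.mul_apply, fp_snd]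
  · intro σ hσ
    obtain ⟨τ, -, hτ⟩ := Finset.exists_ne_zero_of_sum_ne_zero hσ
    exact Th_surj (fun x => (σ x).2) (type_card σ) (GT_types hB hτ).1

/-- the sign of four permutations -/
noncomputable def s4 (p p' : S3 × S3) : ℂ := cs p.1 * cs p.2 * (cs p'.1 * cs p'.2)

lemma GT_none (H : I3 → I3 → I3 → I3 → ℂ) (p p' : S3 × S3) :
    GT H (fp p * Th none) (fp p' * Th none) = s4 p p' *
      ∏ b : Fin 3, H (p.1 b, false) (p.2 b, true) (p'.1 b, false) (p'.2 b, true) := by
  have h1 : Th none = 1 := rfl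
  unfold GT s4
  rw [h1, mul_one, mul_one, fp_sign, fp_sign]
  congr 1
  refine Finset.prod_congr rfl fun b _ => ?_
  rw [fp_false, fp_false, fp_true, fp_true]
  simp [u]

lemma Th_some (π : S3) (b : Fin 3) (c : Bool) :
    Th (some π) (π b, c) = Equiv.swap ((0 : Fin 3), true) ((1 : Fin 3), false) (b, c) := by
  have h : Th (some π) = Equiv.swap ((0 : Fin 3), true) ((1 : Fin 3), false) *
    Equiv.prodCongr π⁻¹ (Equiv.refl Bool) := rfl
  rw [h, Equiv.Perm.mul_apply]
  congr 1
  simp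

lemma GT_some (H : I3 → I3 → I3 → I3 → ℂ) (p p' : S3 × S3) (π : S3) :
    GT H (fp p * Th (some π)) (fp p' * Th (some π)) = 1 / 16 * (s4 p p' *
      (H (p.1 0, false) (p.1 1, false) (p'.1 0, false) (p'.1 1, false) *
      H (p.2 0, true) (p.2 1, true) (p'.2 0, true) (p'.2 1, true) *
      H (p.1 2, false) (p.2 2, true) (p'.1 2, false) (p'.2 2, true))) := by
  have e00 : Equiv.swap ((0 : Fin 3), true) ((1 : Fin 3), false) (0, false) = (0, false) := by
    decide
  have e01 : Equiv.swap ((0 : Fin 3), true) ((1 : Fin 3), false) (0, true) = (1, false) := by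
    decide
  have e10 : Equiv.swap ((0 : Fin 3), true) ((1 : Fin 3), false) (1, false) = (0, true) := by
    decide
  have e11 : Equiv.swap ((0 : Fin 3), true) ((1 : Fin 3), false) (1, true) = (1, true) := by
    decide
  have e20 : Equiv.swap ((0 : Fin 3), true) ((1 : Fin 3), false) (2, false) = (2, false) := by
    decide
  have e21 : Equiv.swap ((0 : Fin 3), true) ((1 : Fin 3), false) (2, true) = (2, true) := by
    decide
  unfold GT s4
  rw [cs_mul, cs_mul, fp_sign, fp_sign]
  have hs := cs_sq (Th (some π))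
  rw [← Equiv.prod_comp π]
  simp only [Equiv.Perm.mul_apply, Th_some]
  rw [Fin.prod_univ_three, e00, e01, e10, e11, e20, e21]
  simp only [fp_false, fp_true]
  have u1 : ∀ (i j : Fin 3) (c : Bool), u (i, c) (j, c) = 1 / 2 := by
    intro i j c
    simp [u]
  have u2 : ∀ i j : Fin 3, u (i, false) (j, true) = 1 := by
    intro i j
    simp [u]
  simp only [u1, u2]
  linear_combination (cs p.1 * cs p.2 * (cs p'.1 * cs p'.2) * (1 / 16) *
      (H (p.1 0, false) (p.1 1, false) (p'.1 0, false) (p'.1 1, false) *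
      H (p.2 0, true) (p.2 1, true) (p'.2 0, true) (p'.2 1, true) *
      H (p.1 2, false) (p.2 2, true) (p'.1 2, false) (p'.2 2, true))) * hs

/-- the part of three mixed factors -/
noncomputable def Z0 (H : I3 → I3 → I3 → I3 → ℂ) : ℂ :=
  ∑ p : S3 × S3, ∑ p' : S3 × S3, s4 p p' *
    ∏ b : Fin 3, H (p.1 b, false) (p.2 b, true) (p'.1 b, false) (p'.2 b, true)

/-- the part of one mixed and two pure factors -/
noncomputable def Z1 (H : I3 → I3 → I3 → I3 → ℂ) : ℂ :=
  ∑ p : S3 × S3, ∑ p' : S3 × S3, s4 p p' *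
    (H (p.1 0, false) (p.1 1, false) (p'.1 0, false) (p'.1 1, false) *
      H (p.2 0, true) (p.2 1, true) (p'.2 0, true) (p'.2 1, true) *
      H (p.1 2, false) (p.2 2, true) (p'.1 2, false) (p'.2 2, true))

theorem GG_split {H : I3 → I3 → I3 → I3 → ℂ} (hH : HS H) (hB : Blk H) :
    GG H = 64 * Z0 H + 24 * Z1 H := by
  rw [GG_GT hH, sum_GT hB, Fintype.sum_option]
  simp only [GT_none, GT_some]
  simp only [← Finset.mul_sum]
  rw [Finset.sum_const, Finset.card_univ, Fintype.card_perm]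
  unfold Z0 Z1
  simp only [Fintype.card_fin, Nat.factorial, nsmul_eq_mul]
  push_cast
  ring

end Pool.Agent.K1H56.HB3
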