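import Pool.Agent.K1H56.HB3.Frame

/-!
# Curvature tensors which are invariant under the circle of a complex structure
-/

set_option autoImplicit false

namespace Pool.Agent.K1H56.HB3

open Finset MeasureTheory Module
open Pool.Agent.W666.GB Pool.Agent.TH598.GV Pool.Agent.R735.HA
open scoped ComplexConjugate ComplexOrder

section

variable {V : Type} [NormedAddCommGroup V] [InnerProductSpace ℝ V]

/-- `J` is a complex structure and `S` is invariant under the rotations `exp (t J)`. -/
structure CircleInv (S : V → V → V → V → ℝ) (J : V →ₗ[ℝ] V) : Prop where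
  sq : ∀ x, J (J x) = -x
  inv : ∀ x y z w, S (J x) y z w + S x (J y) z w + S x y (J z) w + S x y z (J w) = 0

variable {S : V → V → V → V → ℝ}

/-- the multilinear extension of a complex tensor -/
noncomputable def SC (H : I3 → I3 → I3 → I3 → ℂ) (p q r s : I3 → ℂ) : ℂ :=
  ∑ a, ∑ b, ∑ c, ∑ d, H a b c d * (p a * q b * r c * s d)

/-- the matrix of `J` -/
noncomputable def Jm (e : OrthonormalBasis I3 ℝ V) (J : V →ₗ[ℝ] V) : Matrix I3 I3 ℝ :=
  fun a b => e.repr (J (e b)) a

/-- the complex extension of `J` -/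
noncomputable def JC (e : OrthonormalBasis I3 ℝ V) (J : V →ₗ[ℝ] V) :
    (I3 → ℂ) →ₗ[ℂ] (I3 → ℂ) :=
  ((Jm e J).map (algebraMap ℝ ℂ)).mulVecLin

lemma JC_apply (e : OrthonormalBasis I3 ℝ V) (J : V →ₗ[ℝ] V) (z : I3 → ℂ) (a : I3) :
    JC e J z a = ∑ b, ((e.repr (J (e b)) a : ℝ) : ℂ) * z b := rfl

lemma J_vc (e : OrthonormalBasis I3 ℝ V) (J : V →ₗ[ℝ] V) (x : I3 → ℝ) (a : I3) :
    e.repr (J (vc e x)) a = ∑ b, e.repr (J (e b)) a * x b := by
  unfold vc
  rw [map_sum, map_sum]
  simp only [map_smul, WithLp.ofLp_sum, Finset.sum_apply, PiLp.smul_apply, smul_eq_mul]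
  exact Finset.sum_congr rfl fun b _ => mul_comm _ _

lemma vc_re (e : OrthonormalBasis I3 ℝ V) (J : V →ₗ[ℝ] V) (z : I3 → ℂ) :
    (vc e fun a => (JC e J z a).re) = J (vc e fun a => (z a).re) := by
  rw [← vc_repr e (J (vc e fun a => (z a).re))]
  congr 1
  funext a
  rw [J_vc, JC_apply]
  simp

lemma vc_im (e : OrthonormalBasis I3 ℝ V) (J : V →ₗ[ℝ] V) (z : I3 → ℂ) :
    (vc e fun a => (JC e J z a).im) = J (vc e fun a => (z a).im) := by
  rw [← vc_repr e (J (vc e fun a => (z a).im))]
  congr 1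
  funext a
  rw [J_vc, JC_apply]
  simp

lemma JC_conj (e : OrthonormalBasis I3 ℝ V) (J : V →ₗ[ℝ] V) (z : I3 → ℂ) :
    JC e J (fun a => conj (z a)) = fun a => conj (JC e J z a) := by
  funext a
  rw [JC_apply, JC_apply, map_sum]
  refine Finset.sum_congr rfl fun b _ => ?_
  rw [map_mul, Complex.conj_ofReal]

lemma JC_sq (e : OrthonormalBasis I3 ℝ V) {J : V →ₗ[ℝ] V} (hJ : ∀ x, J (J x) = -x)
    (z : I3 → ℂ) : JC e J (JC e J z) = -z := by
  have h1 : ∀ x : I3 → ℝ, e.repr (vc e x) = WithLp.toLp 2 x := by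
    intro x
    ext a
    unfold vc
    rw [map_sum]
    simp only [map_smul, WithLp.ofLp_sum, Finset.sum_apply, PiLp.smul_apply, smul_eq_mul,
      OrthonormalBasis.repr_self]
    rw [Finset.sum_eq_single a]
    · simp
    · intro b _ hb
      simp [Ne.symm hb]
    · intro h
      exact absurd (Finset.mem_univ _) h
  have h2 : ∀ x : I3 → ℝ, ∀ a, e.repr (vc e x) a = x a := fun x a => by rw [h1]
  funext a
  apply Complex.ext
  · have h3 := h2 (fun a => (JC e J (JC e J z) a).re) a
    rw [vc_re, vc_re, hJ, map_neg] at h3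
    have h4 := h2 (fun a => (z a).re) a
    rw [← h3]
    simp only [PiLp.neg_apply, Pi.neg_apply, Complex.neg_re]
    rw [h4]
  · have h3 := h2 (fun a => (JC e J (JC e J z) a).im) a
    rw [vc_im, vc_im, hJ, map_neg] at h3
    have h4 := h2 (fun a => (z a).im) a
    rw [← h3]
    simp only [PiLp.neg_apply, Pi.neg_apply, Complex.neg_im]
    rw [h4]

/-- the eigenspace of `i` (for `c = false`) or `-i` -/
noncomputable def Ev (e : OrthonormalBasis I3 ℝ V) (J : V →ₗ[ℝ] V) (c : Bool) :
    Submodule ℂ (I3 → ℂ) :=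
  LinearMap.ker (JC e J - (if c then -Complex.I else Complex.I) • LinearMap.id)

lemma mem_Ev {e : OrthonormalBasis I3 ℝ V} {J : V →ₗ[ℝ] V} {c : Bool} {z : I3 → ℂ} :
    z ∈ Ev e J c ↔ JC e J z = (if c then -Complex.I else Complex.I) • z := by
  unfold Ev
  rw [LinearMap.mem_ker, LinearMap.sub_apply, LinearMap.smul_apply, LinearMap.id_apply,
    sub_eq_zero]

lemma Ev_compl (e : OrthonormalBasis I3 ℝ V) {J : V →ₗ[ℝ] V} (hJ : ∀ x, J (J x) = -x) :
    IsCompl (Ev e J false) (Ev e J true) := by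
  rw [isCompl_iff]
  constructor
  · rw [Submodule.disjoint_def]
    intro z h1 h2
    rw [mem_Ev] at h1 h2
    simp only [Bool.false_eq_true, if_false, if_true] at h1 h2
    rw [h1] at h2
    have h3 : (2 * Complex.I) • z = 0 := by
      have : (2 * Complex.I) • z = Complex.I • z - (-Complex.I) • z := by
        rw [← sub_smul]; congr 1; ring
      rw [this, h2, sub_self]
    rcases smul_eq_zero.1 h3 with h | h
    · exact absurd h (by simp)
    · exact h
  · rw [codisjoint_iff, eq_top_iff]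
    rintro z -
    have hsq := JC_sq e hJ z
    rw [Submodule.mem_sup]
    refine ⟨(1 / 2 : ℂ) • z - (Complex.I / 2) • JC e J z, ?_,
      (1 / 2 : ℂ) • z + (Complex.I / 2) • JC e J z, ?_, ?_⟩
    · rw [mem_Ev]
      simp only [Bool.false_eq_true, if_false, map_sub, map_smul, hsq]
      funext a
      simp only [Pi.sub_apply, Pi.smul_apply, Pi.neg_apply, smul_eq_mul]
      linear_combination ((1 / 2 : ℂ) * JC e J z a) * Complex.I_sq
    · rw [mem_Ev]
      simp only [if_true, map_add, map_smul, hsq]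
      funext a
      simp only [Pi.add_apply, Pi.smul_apply, Pi.neg_apply, smul_eq_mul]
      linear_combination ((1 / 2 : ℂ) * JC e J z a) * Complex.I_sq
    · funext a
      simp only [Pi.add_apply, Pi.sub_apply, Pi.smul_apply, smul_eq_mul]
      ring

lemma conj_mem_Ev {e : OrthonormalBasis I3 ℝ V} {J : V →ₗ[ℝ] V} {c : Bool} {z : I3 → ℂ}
    (h : z ∈ Ev e J c) : (fun a => conj (z a)) ∈ Ev e J (!c) := by
  rw [mem_Ev] at h ⊢
  rw [JC_conj, h]
  funext a
  cases c <;> simp

/-- complex conjugation of the coordinates -/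
noncomputable def conjE : (I3 → ℂ) ≃ₗ[ℝ] (I3 → ℂ) :=
  { toFun := fun z a => conj (z a)
    map_add' := fun x y => by funext a; simp
    map_smul' := fun t x => by funext a; simp
    invFun := fun z a => conj (z a)
    left_inv := fun z => by funext a; simp
    right_inv := fun z => by funext a; simp }

lemma Ev_dim (e : OrthonormalBasis I3 ℝ V) {J : V →ₗ[ℝ] V} (hJ : ∀ x, J (J x) = -x) :
    finrank ℂ (Ev e J false) = 3 := by
  have h1 : ((Ev e J false).restrictScalars ℝ).map (conjE : (I3 → ℂ) →ₗ[ℝ] (I3 → ℂ)) =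
      (Ev e J true).restrictScalars ℝ := by
    ext z
    rw [Submodule.mem_map]
    constructor
    · rintro ⟨y, hy, rfl⟩
      exact conj_mem_Ev (c := false) hy
    · intro hz
      refine ⟨fun a => conj (z a), conj_mem_Ev (c := true) hz, ?_⟩
      funext a
      change conj (conj (z a)) = z a
      simp
  have h2 := LinearEquiv.finrank_map_eq conjE ((Ev e J false).restrictScalars ℝ)
  rw [h1] at h2
  have h3 : finrank ℝ ((Ev e J true).restrictScalars ℝ) = 2 * finrank ℂ (Ev e J true) :=
    finrank_real_of_complex _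
  have h4 : finrank ℝ ((Ev e J false).restrictScalars ℝ) = 2 * finrank ℂ (Ev e J false) :=
    finrank_real_of_complex _
  have h5 := Submodule.finrank_add_eq_of_isCompl (Ev_compl e hJ)
  have h6 : finrank ℂ (I3 → ℂ) = 6 := by
    rw [Module.finrank_fintype_fun_eq_card]
    simp
  rw [h6] at h5
  omega

end

end Pool.Agent.K1H56.HB3
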