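import Pool.Agent.K1H56.HB3.Frame

/-!
# Curvature operators which preserve a real splitting `3 + 3`
-/

set_option autoImplicit false

namespace Pool.Agent.K1H56.HB3

open Finset MeasureTheory Module
open Pool.Agent.W666.GB Pool.Agent.TH598.GV Pool.Agent.R735.HA
open scoped ComplexConjugate ComplexOrder

variable {V : Type} [NormedAddCommGroup V] [InnerProductSpace ℝ V]

/-- `V = E ⊕ E'` with `dim E = 3`, and the curvature operator of `S` respects the splitting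
`Λ²V = Λ²E ⊕ (E ∧ E') ⊕ Λ²E'`. -/
structure RealSplit (S : V → V → V → V → ℝ) (E E' : Submodule ℝ V) : Prop where
  compl : IsCompl E E'
  dim : finrank ℝ E = 3
  h1 : ∀ a ∈ E, ∀ b ∈ E, ∀ c ∈ E, ∀ d ∈ E', S a b c d = 0
  h2 : ∀ a ∈ E', ∀ b ∈ E', ∀ c ∈ E', ∀ d ∈ E, S a b c d = 0
  h3 : ∀ a ∈ E, ∀ b ∈ E, ∀ c ∈ E', ∀ d ∈ E', S a b c d = 0

lemma psd_ofReal (T : Fin 3 → Fin 3 → ℝ) (hs : ∀ i j, T j i = T i j)
    (h : ∀ a : Fin 3 → ℝ, 0 ≤ ∑ i, ∑ j, T i j * (a i * a j)) :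
    (Matrix.of fun i j => ((T i j : ℝ) : ℂ)).PosSemidef := by
  refine psd_of_nonneg _ fun x => ?_
  have h1 : star x ⬝ᵥ (Matrix.of fun i j => ((T i j : ℝ) : ℂ)).mulVec x =
      ((∑ i, ∑ j, T i j * ((x i).re * (x j).re) +
        ∑ i, ∑ j, T i j * ((x i).im * (x j).im) : ℝ) : ℂ) := by
    simp only [dotProduct, Matrix.mulVec, Matrix.of_apply, Fin.sum_univ_three, Pi.star_apply,
      RCLike.star_def]
    rw [hs 0 1, hs 0 2, hs 1 2]
    apply Complex.ext
    · simp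
      ring
    · simp
      ring
  rw [h1]
  exact_mod_cast add_nonneg (h _) (h _)

lemma cmp_ne {S : V → V → V → V → ℝ} {f : I3 → V} {i j k l : I3} (h : cmp S f i j k l ≠ 0) :
    S (f i) (f j) (f k) (f l) ≠ 0 := by
  intro h0
  apply h
  unfold cmp
  rw [h0]
  simp

lemma blk_real {S : V → V → V → V → ℝ} (hS : AlgCurv S) {E E' : Submodule ℝ V}
    (hE : RealSplit S E E') {f : I3 → V} (hf : ∀ i, f (i, false) ∈ E)
    (hf' : ∀ i, f (i, true) ∈ E') : Blk (cmp S f) := by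
  have hanti2 : ∀ a b c d, S a b d c = - S a b c d := fun a b c d => by
    rw [hS.pair d c a b, hS.anti c d a b, hS.pair c d a b]
  rintro ⟨i, ci⟩ ⟨j, cj⟩ ⟨k, ck⟩ ⟨l, cl⟩ hne
  have h := cmp_ne hne
  have z : ∀ {x : ℝ}, x = 0 → x ≠ 0 → False := fun h1 h2 => h2 h1
  cases ci <;> cases cj <;> cases ck <;> cases cl <;> simp only [true_and, and_true, and_self,
    true_or, or_true, Bool.false_eq_true, Bool.true_eq_false, or_self, false_and, and_false]
  · exact h (hE.h1 _ (hf i) _ (hf j) _ (hf k) _ (hf' l))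
  · exact h (by rw [hanti2, hE.h1 _ (hf i) _ (hf j) _ (hf l) _ (hf' k), neg_zero])
  · exact h (hE.h3 _ (hf i) _ (hf j) _ (hf' k) _ (hf' l))
  · exact h (by rw [← hS.pair]; exact hE.h1 _ (hf k) _ (hf l) _ (hf i) _ (hf' j))
  · exact h (by rw [← hS.pair, hanti2, hE.h2 _ (hf' k) _ (hf' l) _ (hf' j) _ (hf i), neg_zero])
  · exact h (by rw [← hS.pair, hanti2, hE.h1 _ (hf k) _ (hf l) _ (hf j) _ (hf' i), neg_zero])
  · exact h (by rw [← hS.pair]; exact hE.h2 _ (hf' k) _ (hf' l) _ (hf' i) _ (hf j))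
  · exact h (by rw [← hS.pair]; exact hE.h3 _ (hf k) _ (hf l) _ (hf' i) _ (hf' j))
  · exact h (by rw [hanti2, hE.h2 _ (hf' i) _ (hf' j) _ (hf' l) _ (hf k), neg_zero])
  · exact h (hE.h2 _ (hf' i) _ (hf' j) _ (hf' k) _ (hf l))

/-- the pure blocks -/
lemma St_real {S : V → V → V → V → ℝ} (hS : AlgCurv S) (hs : ∀ a b, S a b a b ≤ 0) (f : I3 → V)
    (c : Bool) : (St (cmp S f) c).PosSemidef := by
  have h0 : St (cmp S f) c = Matrix.of fun m m' : Fin 3 =>
      ((-S (f (m + 1, c)) (f (m + 2, c)) (f (m' + 1, c)) (f (m' + 2, c)) : ℝ) : ℂ) := rfl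
  rw [h0]
  refine psd_ofReal _ (fun i j => by rw [hS.pair]) fun a => ?_
  obtain ⟨z, w, hzw⟩ := cross a
  obtain ⟨g, hg⟩ : ∃ g : Fin 3 → V, g = fun i => f (i, c) := ⟨_, rfl⟩
  have h1 := rq_eq hS g z w z w
  have hanti2 : ∀ a b c d, S a b d c = - S a b c d := fun a b c d => by
    rw [hS.pair d c a b, hS.anti c d a b, hS.pair c d a b]
  have h2 : ∀ i j, ∑ k, ∑ l, -S (g i) (g j) (g k) (g l) * (z i * w j * z k * w l) =
      (∑ m : Fin 3, -S (g i) (g j) (g (m + 1)) (g (m + 2)) * a m) * (z i * w j) := by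
    intro i j
    have e2 := sum_pairs (fun k l => -S (g i) (g j) (g k) (g l))
      (fun k l => by rw [hanti2]) z w
    simp only [hzw] at e2
    rw [← e2]
    simp only [Finset.sum_mul]
    exact Finset.sum_congr rfl fun k _ => Finset.sum_congr rfl fun l _ => by ring
  have h3 := sum_pairs (fun i j => ∑ m : Fin 3, -S (g i) (g j) (g (m + 1)) (g (m + 2)) * a m)
    (fun i j => by simp only [hS.anti (g i) (g j), neg_mul, Finset.sum_neg_distrib]) z w
  simp only [hzw] at h3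
  have h4 : ∑ i : Fin 3, ∑ j : Fin 3, -S (f (i + 1, c)) (f (i + 2, c)) (f (j + 1, c))
      (f (j + 2, c)) * (a i * a j) = -S (vc g z) (vc g w) (vc g z) (vc g w) := by
    rw [← h1]
    unfold rq
    simp only [h2]
    rw [h3]
    refine Finset.sum_congr rfl fun i _ => ?_
    rw [Finset.sum_mul]
    exact Finset.sum_congr rfl fun j _ => by rw [hg]; ring
  rw [h4]
  have := hs (vc g z) (vc g w)
  linarith

/-- **The sign for a real splitting.** -/
theorem sign_real (e : OrthonormalBasis I3 ℝ V) {S : V → V → V → V → ℝ} (hS : AlgCurv S)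
    (hs : ∀ a b, S a b a b ≤ 0) {E E' : Submodule ℝ V} (hE : RealSplit S E E') :
    0 ≤ (-1) ^ 3 * gbc e S := by
  obtain ⟨b, hb, hb'⟩ := adapted_basis e.toBasis E E' hE.compl hE.dim
  refine sign_frame e S (fm e b) (fm_det e b) ?_
  rw [Hc_real e hS]
  refine GG_nonneg (cmp_HS hS b) (blk_real hS hE hb hb') (fun x y => ?_)
    (St_real hS hs b false) (St_real hS hs b true)
  unfold cmp
  rw [qf_comp hS b]
  have hE1 : ∀ g : Fin 3 → ℂ, (vc b fun a => (vA g a).re) ∈ E := by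
    intro g
    unfold vc
    refine Submodule.sum_mem _ fun i _ => ?_
    obtain ⟨i, c⟩ := i
    cases c
    · exact Submodule.smul_mem _ _ (hb i)
    · simp [vA]
  have hE2 : ∀ g : Fin 3 → ℂ, (vc b fun a => (vA g a).im) ∈ E := by
    intro g
    unfold vc
    refine Submodule.sum_mem _ fun i _ => ?_
    obtain ⟨i, c⟩ := i
    cases c
    · exact Submodule.smul_mem _ _ (hb i)
    · simp [vA]
  have hE3 : ∀ g : Fin 3 → ℂ, (vc b fun a => (vB g a).re) ∈ E' := by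
    intro g
    unfold vc
    refine Submodule.sum_mem _ fun i _ => ?_
    obtain ⟨i, c⟩ := i
    cases c
    · simp [vB]
    · exact Submodule.smul_mem _ _ (hb' i)
  have hE4 : ∀ g : Fin 3 → ℂ, (vc b fun a => (vB g a).im) ∈ E' := by
    intro g
    unfold vc
    refine Submodule.sum_mem _ fun i _ => ?_
    obtain ⟨i, c⟩ := i
    cases c
    · simp [vB]
    · exact Submodule.smul_mem _ _ (hb' i)
  obtain ⟨p, hp⟩ : ∃ p, p = vc b fun a => (vA x a).re := ⟨_, rfl⟩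
  obtain ⟨q, hq⟩ : ∃ q, q = vc b fun a => (vA x a).im := ⟨_, rfl⟩
  obtain ⟨r, hr⟩ : ∃ r, r = vc b fun a => (vB y a).re := ⟨_, rfl⟩
  obtain ⟨t, ht⟩ : ∃ t, t = vc b fun a => (vB y a).im := ⟨_, rfl⟩
  rw [← hp, ← hq, ← hr, ← ht]
  have hpE : p ∈ E := hp ▸ hE1 x
  have hqE : q ∈ E := hq ▸ hE2 x
  have hrE : r ∈ E' := hr ▸ hE3 y
  have htE : t ∈ E' := ht ▸ hE4 y
  have h1 := hE.h3 p hpE q hqE r hrE t htE
  have h2 := hS.bianchi p q r t
  have h3 := hs p r
  have h4 := hs q t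
  have h5 := hs p t
  have h6 := hs q r
  have h7 : S r p q t = - S p r q t := hS.anti p r q t
  have h8 : S p t q r = S q r p t := hS.pair q r p t
  unfold cxs
  linarith

end Pool.Agent.K1H56.HB3
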