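import Pool.Agent.K1H56.HB3.Cx
import Pool.Agent.K1H56.HB3.Real

/-!
# The sign for curvature tensors which are invariant under the circle of a complex structure
-/

set_option autoImplicit false
set_option linter.unusedSimpArgs false

namespace Pool.Agent.K1H56.HB3

open Finset MeasureTheory Module
open Pool.Agent.W666.GB Pool.Agent.TH598.GV Pool.Agent.R735.HA
open scoped ComplexConjugate ComplexOrder

section

lemma Hc_SC (M : Matrix I3 I3 ℂ) (H : I3 → I3 → I3 → I3 → ℂ) (i j k l : I3) :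
    Hc M H i j k l = SC H (fun a => M a i) (fun a => M a j) (fun a => conj (M a k))
      (fun a => conj (M a l)) := rfl

lemma SC_swap (H : I3 → I3 → I3 → I3 → ℂ) (p q r s : I3 → ℂ) :
    SC H p q r s = SC (fun a b c d => H b a c d) q p r s := by
  unfold SC
  rw [Finset.sum_comm]
  refine Finset.sum_congr rfl fun a _ => Finset.sum_congr rfl fun b _ =>
    Finset.sum_congr rfl fun c _ => Finset.sum_congr rfl fun d _ => by ring

lemma SC_pair (H : I3 → I3 → I3 → I3 → ℂ) (p q r s : I3 → ℂ) :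
    SC H p q r s = SC (fun a b c d => H c d a b) r s p q := by
  unfold SC
  have h1 : ∀ F : I3 → I3 → I3 → I3 → ℂ, ∑ a, ∑ b, ∑ c, ∑ d, F a b c d =
      ∑ x : (I3 × I3) × (I3 × I3), F x.1.1 x.1.2 x.2.1 x.2.2 := by
    intro F
    simp only [Fintype.sum_prod_type (α₁ := I3 × I3) (α₂ := I3 × I3),
      Fintype.sum_prod_type (α₁ := I3) (α₂ := I3)]
  rw [h1, h1]
  rw [← (Equiv.prodComm (I3 × I3) (I3 × I3)).sum_comp]
  refine Finset.sum_congr rfl fun x _ => ?_
  simp only [Equiv.prodComm_apply, Prod.fst_swap, Prod.snd_swap]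
  ring

lemma SC_smul (H : I3 → I3 → I3 → I3 → ℂ) (t₁ t₂ t₃ t₄ : ℂ) (p q r s : I3 → ℂ) :
    SC H (t₁ • p) (t₂ • q) (t₃ • r) (t₄ • s) = t₁ * t₂ * t₃ * t₄ * SC H p q r s := by
  unfold SC
  simp only [Finset.mul_sum, Pi.smul_apply, smul_eq_mul]
  refine Finset.sum_congr rfl fun a _ => Finset.sum_congr rfl fun b _ =>
    Finset.sum_congr rfl fun c _ => Finset.sum_congr rfl fun d _ => by ring

lemma SC_add (H K : I3 → I3 → I3 → I3 → ℂ) (p q r s : I3 → ℂ) :
    SC H p q r s + SC K p q r s = SC (fun a b c d => H a b c d + K a b c d) p q r s := by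
  unfold SC
  simp only [← Finset.sum_add_distrib, ← add_mul]

lemma SC_zero (p q r s : I3 → ℂ) : SC (fun _ _ _ _ => 0) p q r s = 0 := by
  unfold SC
  simp

lemma SC_first (H : I3 → I3 → I3 → I3 → ℂ) (p q r s : I3 → ℂ) :
    SC H p q r s = ∑ a, p a * ∑ b, ∑ c, ∑ d, H a b c d * (q b * r c * s d) := by
  unfold SC
  refine Finset.sum_congr rfl fun a _ => ?_
  simp only [Finset.mul_sum]
  refine Finset.sum_congr rfl fun b _ =>
    Finset.sum_congr rfl fun c _ => Finset.sum_congr rfl fun d _ => by ring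

lemma SC_lin (H : I3 → I3 → I3 → I3 → ℂ) (A : I3 → I3 → ℂ) (p q r s : I3 → ℂ) :
    SC H (fun a => ∑ b, A a b * p b) q r s =
      SC (fun a b c d => ∑ x, H x b c d * A x a) p q r s := by
  rw [SC_first, SC_first]
  simp only [Finset.sum_mul]
  rw [Finset.sum_comm]
  refine Finset.sum_congr rfl fun a _ => ?_
  have h1 : ∀ x : I3, A x a * p a * ∑ b, ∑ c, ∑ d, H x b c d * (q b * r c * s d) =
      p a * ∑ b, ∑ c, ∑ d, H x b c d * A x a * (q b * r c * s d) := by
    intro x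
    simp only [Finset.mul_sum]
    refine Finset.sum_congr rfl fun b _ =>
      Finset.sum_congr rfl fun c _ => Finset.sum_congr rfl fun d _ => by ring
  simp only [h1]
  rw [← Finset.mul_sum]
  congr 1
  rw [Finset.sum_comm]
  refine Finset.sum_congr rfl fun b _ => ?_
  rw [Finset.sum_comm]
  refine Finset.sum_congr rfl fun c _ => ?_
  rw [Finset.sum_comm]

end

section

variable {V : Type} [NormedAddCommGroup V] [InnerProductSpace ℝ V]
variable {S : V → V → V → V → ℝ}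

lemma vc_J (e : OrthonormalBasis I3 ℝ V) (J : V →ₗ[ℝ] V) (a : I3) :
    vc e (fun x => e.repr (J (e a)) x) = J (e a) := vc_repr e _

lemma SC_J1 (hS : AlgCurv S) (e : OrthonormalBasis I3 ℝ V) (J : V →ₗ[ℝ] V)
    (p q r s : I3 → ℂ) : SC (cmp S e) (JC e J p) q r s =
      SC (fun a b c d => ((-S (J (e a)) (e b) (e c) (e d) : ℝ) : ℂ)) p q r s := by
  have h : JC e J p = fun a => ∑ b, ((e.repr (J (e b)) a : ℝ) : ℂ) * p b := by
    funext a
    rw [JC_apply]
  rw [h, SC_lin]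
  congr 1
  funext a b c d
  have h1 := l1 hS e (fun x => e.repr (J (e a)) x) (e b) (e c) (e d)
  rw [vc_J] at h1
  rw [h1]
  unfold cmp
  push_cast
  rw [← Finset.sum_neg_distrib]
  exact Finset.sum_congr rfl fun x _ => by ring

lemma SC_anti (hS : AlgCurv S) (e : OrthonormalBasis I3 ℝ V) (p q r s : I3 → ℂ) :
    SC (cmp S e) p q r s = - SC (cmp S e) q p r s := by
  rw [SC_swap]
  unfold SC
  simp only [← Finset.sum_neg_distrib]
  refine Finset.sum_congr rfl fun a _ => Finset.sum_congr rfl fun b _ =>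
    Finset.sum_congr rfl fun c _ => Finset.sum_congr rfl fun d _ => ?_
  unfold cmp
  rw [hS.anti (e a) (e b)]
  push_cast
  ring

lemma SC_sym (hS : AlgCurv S) (e : OrthonormalBasis I3 ℝ V) (p q r s : I3 → ℂ) :
    SC (cmp S e) p q r s = SC (cmp S e) r s p q := by
  rw [SC_pair]
  congr 1
  funext a b c d
  unfold cmp
  rw [hS.pair]

lemma SC_J2 (hS : AlgCurv S) (e : OrthonormalBasis I3 ℝ V) (J : V →ₗ[ℝ] V)
    (p q r s : I3 → ℂ) : SC (cmp S e) p (JC e J q) r s =
      SC (fun a b c d => ((-S (e a) (J (e b)) (e c) (e d) : ℝ) : ℂ)) p q r s := by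
  rw [SC_anti hS, SC_J1 hS, SC_swap]
  unfold SC
  simp only [← Finset.sum_neg_distrib]
  refine Finset.sum_congr rfl fun a _ => Finset.sum_congr rfl fun b _ =>
    Finset.sum_congr rfl fun c _ => Finset.sum_congr rfl fun d _ => ?_
  rw [hS.anti (e a) (J (e b))]
  push_cast
  ring

lemma SC_J3 (hS : AlgCurv S) (e : OrthonormalBasis I3 ℝ V) (J : V →ₗ[ℝ] V)
    (p q r s : I3 → ℂ) : SC (cmp S e) p q (JC e J r) s =
      SC (fun a b c d => ((-S (e a) (e b) (J (e c)) (e d) : ℝ) : ℂ)) p q r s := by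
  rw [SC_sym hS, SC_J1 hS, SC_pair]
  congr 1
  funext a b c d
  rw [hS.pair]

lemma SC_J4 (hS : AlgCurv S) (e : OrthonormalBasis I3 ℝ V) (J : V →ₗ[ℝ] V)
    (p q r s : I3 → ℂ) : SC (cmp S e) p q r (JC e J s) =
      SC (fun a b c d => ((-S (e a) (e b) (e c) (J (e d)) : ℝ) : ℂ)) p q r s := by
  rw [SC_sym hS, SC_J2 hS, SC_pair]
  congr 1
  funext a b c d
  rw [hS.pair]

lemma SC_inv (hS : AlgCurv S) (e : OrthonormalBasis I3 ℝ V) {J : V →ₗ[ℝ] V}
    (hJ : CircleInv S J) (p q r s : I3 → ℂ) :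
    SC (cmp S e) (JC e J p) q r s + SC (cmp S e) p (JC e J q) r s +
      SC (cmp S e) p q (JC e J r) s + SC (cmp S e) p q r (JC e J s) = 0 := by
  rw [SC_J1 hS, SC_J2 hS, SC_J3 hS, SC_J4 hS, SC_add, SC_add, SC_add, ← SC_zero p q r s]
  congr 1
  funext a b c d
  have h := hJ.inv (e a) (e b) (e c) (e d)
  have h2 : (-S (J (e a)) (e b) (e c) (e d) + -S (e a) (J (e b)) (e c) (e d) +
      -S (e a) (e b) (J (e c)) (e d) + -S (e a) (e b) (e c) (J (e d)) : ℝ) = 0 := by linarith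
  exact_mod_cast h2

/-- the eigenvalue -/
noncomputable def ev (c : Bool) : ℂ := if c then -Complex.I else Complex.I

lemma SC_eig (hS : AlgCurv S) (e : OrthonormalBasis I3 ℝ V) {J : V →ₗ[ℝ] V}
    (hJ : CircleInv S J) {p q r s : I3 → ℂ} {c₁ c₂ c₃ c₄ : Bool} (h1 : p ∈ Ev e J c₁)
    (h2 : q ∈ Ev e J c₂) (h3 : r ∈ Ev e J c₃) (h4 : s ∈ Ev e J c₄) :
    (ev c₁ + ev c₂ + ev c₃ + ev c₄) * SC (cmp S e) p q r s = 0 := by
  have h := SC_inv hS e hJ p q r s
  rw [mem_Ev.1 h1, mem_Ev.1 h2, mem_Ev.1 h3, mem_Ev.1 h4] at h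
  have e1 := SC_smul (cmp S e) (ev c₁) 1 1 1 p q r s
  have e2 := SC_smul (cmp S e) 1 (ev c₂) 1 1 p q r s
  have e3 := SC_smul (cmp S e) 1 1 (ev c₃) 1 p q r s
  have e4 := SC_smul (cmp S e) 1 1 1 (ev c₄) p q r s
  simp only [one_smul] at e1 e2 e3 e4
  unfold ev at *
  rw [e1, e2, e3, e4] at h
  rw [← h]
  ring

lemma blk_cx (hS : AlgCurv S) (e : OrthonormalBasis I3 ℝ V) {J : V →ₗ[ℝ] V}
    (hJ : CircleInv S J) {M : Matrix I3 I3 ℂ} (hM : ∀ i, (fun a => M a i) ∈ Ev e J i.2) :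
    Blk (Hc M (cmp S e)) := by
  rintro i j k l hne
  rw [Hc_SC] at hne
  have h := SC_eig hS e hJ (hM i) (hM j) (conj_mem_Ev (hM k)) (conj_mem_Ev (hM l))
  have h0 := (mul_eq_zero.1 h).resolve_right hne
  have hI := Complex.I_ne_zero
  obtain ⟨i, ci⟩ := i
  obtain ⟨j, cj⟩ := j
  obtain ⟨k, ck⟩ := k
  obtain ⟨l, cl⟩ := l
  simp only at h0 ⊢
  have n2 : (2 : ℂ) * Complex.I ≠ 0 := mul_ne_zero two_ne_zero hI
  have n4 : (4 : ℂ) * Complex.I ≠ 0 := mul_ne_zero four_ne_zero hI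
  cases ci <;> cases cj <;> cases ck <;> cases cl <;>
    simp only [ev, Bool.not_false, Bool.not_true, if_true, if_false, Bool.false_eq_true] at h0 <;>
    simp only [true_and, and_true, and_self,
      true_or, or_true, Bool.false_eq_true, Bool.true_eq_false, or_self, false_and, and_false] <;>
    first
    | exact n2 (by linear_combination h0)
    | exact n2 (by linear_combination -h0)
    | exact n4 (by linear_combination h0)
    | exact n4 (by linear_combination -h0)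

lemma Ev_re {e : OrthonormalBasis I3 ℝ V} {J : V →ₗ[ℝ] V} {z : I3 → ℂ} {c : Bool}
    (h : z ∈ Ev e J c) : (vc e fun a => (z a).im) =
      if c then J (vc e fun a => (z a).re) else - J (vc e fun a => (z a).re) := by
  rw [← vc_re, mem_Ev.1 h]
  unfold vc
  cases c
  · simp
  · simp

lemma cxs_neg (hS : AlgCurv S) (x y u v : V) : cxs S x (-y) u (-v) = cxs S x y u v := by
  have n1 : ∀ a b c d, S (-a) b c d = - S a b c d := fun a b c d => by
    have := hS.smul (-1) a b c d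
    rwa [neg_one_smul, neg_one_mul] at this
  have n2 : ∀ a b c d, S a (-b) c d = - S a b c d := fun a b c d => by
    rw [hS.anti (-b) a, n1, hS.anti b a]
  have n3 : ∀ a b c d, S a b (-c) d = - S a b c d := fun a b c d => by
    rw [hS.pair (-c) d, n1, hS.pair c d]
  have n4 : ∀ a b c d, S a b c (-d) = - S a b c d := fun a b c d => by
    rw [hS.pair c (-d), n2, hS.pair c d]
  unfold cxs
  simp only [n1, n2, n3, n4]
  ring

/-- positivity on two eigenvectors -/
lemma qf_cx (hS : AlgCurv S) (e : OrthonormalBasis I3 ℝ V) {J : V →ₗ[ℝ] V}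
    (h1 : ∀ x u, cxs S x (J x) u (J u) ≤ 0) (h2 : ∀ x u, cxs S x (J x) u (-J u) ≤ 0)
    {z w : I3 → ℂ} {c d : Bool} (hz : z ∈ Ev e J c) (hw : w ∈ Ev e J d) :
    0 ≤ (qf (cmp S e) z w).re := by
  unfold cmp
  rw [qf_comp hS e, Ev_re hz, Ev_re hw, neg_nonneg]
  cases c <;> cases d <;> simp only [Bool.false_eq_true, if_true, if_false]
  · rw [cxs_neg hS]
    exact h1 _ _
  · rw [← cxs_neg hS, neg_neg]
    exact h2 _ _
  · exact h2 _ _
  · exact h1 _ _

/-- **The sign for curvature tensors which are invariant under the circle of `J`.** -/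
theorem sign_cx (hS : AlgCurv S) (e : OrthonormalBasis I3 ℝ V) {J : V →ₗ[ℝ] V}
    (hJ : CircleInv S J) (h1 : ∀ x u, cxs S x (J x) u (J u) ≤ 0)
    (h2 : ∀ x u, cxs S x (J x) u (-J u) ≤ 0) : 0 ≤ (-1) ^ 3 * gbc e S := by
  obtain ⟨b, hb, hb'⟩ := adapted_basis (Pi.basisFun ℂ I3) (Ev e J false) (Ev e J true)
    (Ev_compl e hJ.sq) (Ev_dim e hJ.sq)
  obtain ⟨M, hM⟩ : ∃ M : Matrix I3 I3 ℂ, M = fun a i => b i a := ⟨_, rfl⟩
  have hdet : M.det ≠ 0 := by
    have h := (Pi.basisFun ℂ I3).isUnit_det b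
    rw [Basis.det_apply] at h
    have h3 : M = (Pi.basisFun ℂ I3).toMatrix b := by
      ext a i
      rw [hM, Basis.toMatrix_apply, Pi.basisFun_repr]
    rw [h3]
    exact h.ne_zero
  have hcol : ∀ i, (fun a => M a i) ∈ Ev e J i.2 := by
    rintro ⟨i, c⟩
    have h3 : (fun a => M a (i, c)) = b (i, c) := by
      funext a
      rw [hM]
    rw [h3]
    cases c
    · exact hb i
    · exact hb' i
  have hA : ∀ x : Fin 3 → ℂ, M.mulVec (vA x) ∈ Ev e J false := by
    intro x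
    have h3 : M.mulVec (vA x) = ∑ i : Fin 3, x i • b (i, false) := by
      funext a
      rw [Finset.sum_apply]
      unfold Matrix.mulVec dotProduct
      rw [Fintype.sum_prod_type]
      refine Finset.sum_congr rfl fun i _ => ?_
      rw [Fintype.sum_bool]
      simp [vA, hM, mul_comm]
    rw [h3]
    exact Submodule.sum_mem _ fun i _ => Submodule.smul_mem _ _ (hb i)
  have hB : ∀ x : Fin 3 → ℂ, M.mulVec (vB x) ∈ Ev e J true := by
    intro x
    have h3 : M.mulVec (vB x) = ∑ i : Fin 3, x i • b (i, true) := by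
      funext a
      rw [Finset.sum_apply]
      unfold Matrix.mulVec dotProduct
      rw [Fintype.sum_prod_type]
      refine Finset.sum_congr rfl fun i _ => ?_
      rw [Fintype.sum_bool]
      simp [vB, hM, mul_comm]
    rw [h3]
    exact Submodule.sum_mem _ fun i _ => Submodule.smul_mem _ _ (hb' i)
  have hHS : HS (Hc M (cmp S e)) := Hc_HS M (cmp_HS hS e)
  refine sign_frame e S M hdet ?_
  refine GG_nonneg hHS (blk_cx hS e hJ hcol) (fun x y => ?_)
    (St_psd hHS false fun x y => ?_) (St_psd hHS true fun x y => ?_)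
  · rw [qf_Hc]
    exact qf_cx hS e h1 h2 (hA x) (hB y)
  · rw [qf_Hc]
    exact qf_cx hS e h1 h2 (hA x) (hA y)
  · rw [qf_Hc]
    exact qf_cx hS e h1 h2 (hB x) (hB y)

end

end Pool.Agent.K1H56.HB3
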