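import Pool.Agent.K1H56.HB3.Cx2

/-!
# The general statement for complex splittings, sums with decomposable squares, integrated forms
-/

set_option autoImplicit false

namespace Pool.Agent.K1H56.HB3

open Finset MeasureTheory Module
open Pool.Agent.W666.GB Pool.Agent.TH598.GV Pool.Agent.R735.HA
open Pool.Agent.W669.HD (addT unitT)
open Pool.Agent.Y519.HB (sqDec)
open scoped ComplexConjugate ComplexOrder

section

variable {V : Type} [NormedAddCommGroup V] [InnerProductSpace ℝ V]
variable {S : V → V → V → V → ℝ}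

/-- `-S^ℂ (z, w, conj z', conj w')`, for complex vectors given by their coordinates in `e`. -/
noncomputable def herm (e : OrthonormalBasis (Fin 3 × Bool) ℝ V) (S : V → V → V → V → ℝ)
    (z w z' w' : Fin 3 × Bool → ℂ) : ℂ :=
  ∑ a, ∑ b, ∑ c, ∑ d, ((-S (e a) (e b) (e c) (e d) : ℝ) : ℂ) *
    (z a * w b * conj (z' c) * conj (w' d))

/-- `A false ⊕ A true` is a splitting of the complexification of `V` (in the coordinates of `e`) into
subspaces of dimension three; the Hermitian extension of the curvature operator of `S` respects the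
induced splitting of the bivectors into the three spaces `A i ∧ A j`, and it is nonpositive on the
bivectors `z ∧ w` with `z ∈ A i`, `w ∈ A j`. -/
structure CxSplit (e : OrthonormalBasis (Fin 3 × Bool) ℝ V) (S : V → V → V → V → ℝ)
    (A : Bool → Submodule ℂ (Fin 3 × Bool → ℂ)) : Prop where
  compl : IsCompl (A false) (A true)
  dim : finrank ℂ (A false) = 3
  orth : ∀ i j k l : Bool, ∀ z ∈ A i, ∀ w ∈ A j, ∀ z' ∈ A k, ∀ w' ∈ A l,
    herm e S z w z' w' ≠ 0 → (i = k ∧ j = l) ∨ (i = l ∧ j = k)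
  pos : ∀ i j : Bool, ∀ z ∈ A i, ∀ w ∈ A j, 0 ≤ (herm e S z w z w).re

/-- **The sign for a complex splitting.** -/
theorem sign_split (hS : AlgCurv S) (e : OrthonormalBasis I3 ℝ V)
    {A : Bool → Submodule ℂ (I3 → ℂ)} (hA : CxSplit e S A) : 0 ≤ (-1) ^ 3 * gbc e S := by
  obtain ⟨b, hb, hb'⟩ := adapted_basis (Pi.basisFun ℂ I3) (A false) (A true) hA.compl hA.dim
  obtain ⟨M, hM⟩ : ∃ M : Matrix I3 I3 ℂ, M = fun a i => b i a := ⟨_, rfl⟩
  have hdet : M.det ≠ 0 := by
    have h := (Pi.basisFun ℂ I3).isUnit_det b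
    rw [Basis.det_apply] at h
    have h3 : M = (Pi.basisFun ℂ I3).toMatrix b := by
      ext a i
      rw [hM, Basis.toMatrix_apply, Pi.basisFun_repr]
    rw [h3]
    exact h.ne_zero
  have hcol : ∀ i : I3, (fun a => M a i) ∈ A i.2 := by
    rintro ⟨i, c⟩
    have h3 : (fun a => M a (i, c)) = b (i, c) := by
      funext a
      rw [hM]
    rw [h3]
    cases c
    · exact hb i
    · exact hb' i
  have hvA : ∀ x : Fin 3 → ℂ, M.mulVec (vA x) ∈ A false := by
    intro x
    have h3 : M.mulVec (vA x) = ∑ i : Fin 3, x i • b (i, false) := by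
      funext a
      rw [Finset.sum_apply]
      unfold Matrix.mulVec dotProduct
      rw [Fintype.sum_prod_type]
      refine Finset.sum_congr rfl fun i _ => ?_
      rw [Fintype.sum_bool]
      simp [vA, hM, mul_comm]
    rw [h3]
    exact Submodule.sum_mem _ fun i _ => Submodule.smul_mem _ _ (hb i)
  have hvB : ∀ x : Fin 3 → ℂ, M.mulVec (vB x) ∈ A true := by
    intro x
    have h3 : M.mulVec (vB x) = ∑ i : Fin 3, x i • b (i, true) := by
      funext a
      rw [Finset.sum_apply]
      unfold Matrix.mulVec dotProduct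
      rw [Fintype.sum_prod_type]
      refine Finset.sum_congr rfl fun i _ => ?_
      rw [Fintype.sum_bool]
      simp [vB, hM, mul_comm]
    rw [h3]
    exact Submodule.sum_mem _ fun i _ => Submodule.smul_mem _ _ (hb' i)
  have hHS : HS (Hc M (cmp S e)) := Hc_HS M (cmp_HS hS e)
  have hqf : ∀ z w : I3 → ℂ, qf (cmp S e) z w = herm e S z w z w := fun _ _ => rfl
  refine sign_frame e S M hdet ?_
  refine GG_nonneg hHS (fun i j k l hne => ?_) (fun x y => ?_)
    (St_psd hHS false fun x y => ?_) (St_psd hHS true fun x y => ?_)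
  · exact hA.orth i.2 j.2 k.2 l.2 _ (hcol i) _ (hcol j) _ (hcol k) _ (hcol l) hne
  · rw [qf_Hc, hqf]
    exact hA.pos false true _ (hvA x) _ (hvB y)
  · rw [qf_Hc, hqf]
    exact hA.pos false false _ (hvA x) _ (hvA y)
  · rw [qf_Hc, hqf]
    exact hA.pos true true _ (hvB x) _ (hvB y)

/-- a circle invariant tensor has a complex splitting -/
theorem circle_split (hS : AlgCurv S) (e : OrthonormalBasis I3 ℝ V) {J : V →ₗ[ℝ] V}
    (hJ : CircleInv S J) (h : ∀ x u, cxs S x (J x) u (J u) ≤ 0 ∧ cxs S x (J x) u (-J u) ≤ 0) :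
    ∃ A, CxSplit e S A := by
  refine ⟨Ev e J, Ev_compl e hJ.sq, Ev_dim e hJ.sq, ?_, ?_⟩
  · intro i j k l z hz w hw z' hz' w' hw' hne
    have h1 := SC_eig hS e hJ hz hw (conj_mem_Ev hz') (conj_mem_Ev hw')
    have h0 := (mul_eq_zero.1 h1).resolve_right hne
    have hI := Complex.I_ne_zero
    have n2 : (2 : ℂ) * Complex.I ≠ 0 := mul_ne_zero two_ne_zero hI
    have n4 : (4 : ℂ) * Complex.I ≠ 0 := mul_ne_zero four_ne_zero hI
    cases i <;> cases j <;> cases k <;> cases l <;>
      simp only [ev, Bool.not_false, Bool.not_true, if_true, if_false, Bool.false_eq_true] at h0 <;>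
      simp <;>
      first
      | exact n2 (by linear_combination h0)
      | exact n2 (by linear_combination -h0)
      | exact n4 (by linear_combination h0)
      | exact n4 (by linear_combination -h0)
  · intro i j z hz w hw
    exact qf_cx hS e (fun x u => (h x u).1) (fun x u => (h x u).2) hz hw

/-- `R = S + T`, where `S` is an algebraic curvature tensor of nonpositive sectional curvature whose
curvature operator respects a real or complex splitting `3 + 3`, and `T` is minus a sum of squares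
of decomposable bivectors minus `δ` times the tensor of constant curvature one. -/
def PlusSplit (e : OrthonormalBasis (Fin 3 × Bool) ℝ V) (δ : ℝ) (R : V → V → V → V → ℝ) : Prop :=
  ∃ (S : V → V → V → V → ℝ) (n : ℕ) (x y : Fin n → V), AlgCurv S ∧ (∀ a b, S a b a b ≤ 0) ∧
    ((∃ E E' : Submodule ℝ V, RealSplit S E E') ∨ ∃ A, CxSplit e S A) ∧
    ∀ a b c d, R a b c d = S a b c d - (∑ k, sqDec (x k) (y k) a b c d) - δ * unitT a b c d

theorem plus_bound (e : OrthonormalBasis I3 ℝ V) {δ : ℝ} (hδ : 0 ≤ δ) {R : V → V → V → V → ℝ}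
    (h : PlusSplit e δ R) : roundGB 3 δ ≤ (-1) ^ 3 * gbc e R := by
  obtain ⟨S, n, x, y, hS, hs, hsp, hR⟩ := h
  have h1 : 0 ≤ (-1) ^ 3 * gbc e S := by
    rcases hsp with ⟨E, E', hE⟩ | ⟨A, hA⟩
    · exact sign_real e hS hs hE
    · exact sign_split hS e hA
  obtain ⟨T, hT⟩ : ∃ T : V → V → V → V → ℝ, ∀ a b c d, T a b c d =
    -(∑ k, sqDec (x k) (y k) a b c d) - δ * unitT a b c d := ⟨_, fun _ _ _ _ => rfl⟩
  have h2 := Pool.Agent.Y519.HB.six_super e hδ hS hs hT
  have h3 : R = addT S T := by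
    funext a b c d
    rw [hR]
    unfold addT
    rw [hT]
    ring
  rw [h3]
  linarith [h2.1, h2.2]

end

variable {M : Type} [MeasurableSpace M]

/-- the integrated form -/
theorem field_plus (μ : Measure M) (K : CurvField 3 M) (δ : M → ℝ)
    (h : ∀ p, 0 ≤ δ p ∧ PlusSplit (K.e p) (δ p) (K.R p)) :
    0 ≤ (-1) ^ 3 * ∫ p, K.gb p ∂μ ∧
    (Integrable K.gb μ → Integrable (fun p => roundGB 3 (δ p)) μ →
      ∫ p, roundGB 3 (δ p) ∂μ ≤ (-1) ^ 3 * ∫ p, K.gb p ∂μ) ∧
    (Integrable K.gb μ → μ {p | 0 < δ p} ≠ 0 → 0 < (-1) ^ 3 * ∫ p, K.gb p ∂μ) := by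
  have h0 : ∀ p, roundGB 3 (δ p) ≤ (-1) ^ 3 * K.gb p := fun p => plus_bound (K.e p) (h p).1 (h p).2
  have h1 : ∀ p, 0 ≤ (-1) ^ 3 * K.gb p := fun p => (roundGB_nonneg' 3 (h p).1).trans (h0 p)
  refine ⟨?_, fun hi hi' => ?_, fun hi hμ => ?_⟩
  · rw [← integral_const_mul]
    exact integral_nonneg h1
  · rw [← integral_const_mul]
    exact integral_mono hi' (hi.const_mul _) h0
  · rw [← integral_const_mul,
      integral_pos_iff_support_of_nonneg (fun p => h1 p) (hi.const_mul _)]
    refine lt_of_lt_of_le (pos_iff_ne_zero.mpr hμ) (measure_mono fun p hp => ?_)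
    have h3 : 0 < δ p := hp
    have h2 : 0 < roundGB 3 (δ p) := by
      have hπ := Real.pi_pos
      unfold roundGB
      positivity
    exact (h2.trans_le (h0 p)).ne'

/-- the integrated form without a bound for the real sectional curvatures -/
theorem field_split (μ : Measure M) (K : CurvField 3 M) (h : ∀ p, ∃ A, CxSplit (K.e p) (K.R p) A) :
    0 ≤ (-1) ^ 3 * ∫ p, K.gb p ∂μ := by
  have h1 : ∀ p, 0 ≤ (-1) ^ 3 * K.gb p := fun p => by
    obtain ⟨A, hA⟩ := h p
    exact sign_split (K.curv p) (K.e p) hA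
  rw [← integral_const_mul]
  exact integral_nonneg h1

end Pool.Agent.K1H56.HB3
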