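import Pool.Agent.K1H56.HB3.Pos
import Pool.Agent.R735.HA.Geo
import Pool.Agent.Y519.HB.Top

/-!
# The Gauss–Bonnet–Chern integrand in a frame which is adapted to a splitting
-/

set_option autoImplicit false

namespace Pool.Agent.K1H56.HB3

open Finset MeasureTheory Module
open Pool.Agent.W666.GB Pool.Agent.TH598.GV Pool.Agent.R735.HA
open scoped ComplexConjugate ComplexOrder

/-- a basis adapted to two complementary subspaces of dimension three -/
lemma adapted_basis {K W : Type} [Field K] [AddCommGroup W] [Module K W] (e : Basis I3 K W)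
    (A B : Submodule K W) (h : IsCompl A B) (hA : finrank K A = 3) :
    ∃ b : Basis I3 K W, (∀ i, b (i, false) ∈ A) ∧ ∀ i, b (i, true) ∈ B := by
  classical
  have hfin : FiniteDimensional K W := Module.Finite.of_basis e
  have hW : finrank K W = 6 := by
    rw [finrank_eq_card_basis e]
    simp
  have hB : finrank K B = 3 := by
    have := Submodule.finrank_add_eq_of_isCompl h
    omega
  let bA : Basis (Fin 3) K A := finBasisOfFinrankEq K A hA
  let bB : Basis (Fin 3) K B := finBasisOfFinrankEq K B hB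
  let E : (Fin 3 ⊕ Fin 3) ≃ I3 :=
    { toFun := Sum.elim (fun i => (i, false)) (fun i => (i, true))
      invFun := fun x => if x.2 then Sum.inr x.1 else Sum.inl x.1
      left_inv := by rintro (i | i) <;> simp
      right_inv := by rintro ⟨i, c⟩; cases c <;> simp }
  refine ⟨((bA.prod bB).map (Submodule.prodEquivOfIsCompl A B h)).reindex E, fun i => ?_,
    fun i => ?_⟩
  · have h1 : E.symm (i, false) = Sum.inl i := by simp [E]
    rw [Basis.reindex_apply, h1, Basis.map_apply]
    simp
  · have h1 : E.symm (i, true) = Sum.inr i := by simp [E]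
    rw [Basis.reindex_apply, h1, Basis.map_apply]
    simp

section

variable {V : Type} [NormedAddCommGroup V] [InnerProductSpace ℝ V]

/-- the components of `-S` in a family of vectors, as complex numbers -/
noncomputable def cmp (S : V → V → V → V → ℝ) (f : I3 → V) : I3 → I3 → I3 → I3 → ℂ :=
  fun a b c d => ((-S (f a) (f b) (f c) (f d) : ℝ) : ℂ)

lemma cmp_HS {S : V → V → V → V → ℝ} (hS : AlgCurv S) (f : I3 → V) : HS (cmp S f) := by
  constructor
  · intro i j k l
    simp only [cmp]
    rw [Complex.conj_ofReal, hS.pair]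
  · intro i j k l
    simp only [cmp]
    rw [hS.anti]
    push_cast
    ring

lemma gbc_cmp (e : OrthonormalBasis I3 ℝ V) (S : V → V → V → V → ℝ) :
    (-1) ^ 3 * gbc e S = 1 / ((8 * Real.pi) ^ 3 * ((3 : ℕ).factorial : ℝ)) *
      (GG (cmp S e)).re := by
  unfold cmp
  rw [Pool.Agent.TH828.J3423.GG_re (fun a b c d => -S (e a) (e b) (e c) (e d))]
  unfold gbc
  rw [mul_left_comm]
  congr 1
  simp only [Finset.mul_sum]
  refine Finset.sum_congr rfl fun σ _ => Finset.sum_congr rfl fun τ _ => ?_
  rw [Finset.prod_neg, Finset.card_univ, Fintype.card_fin]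
  simp only [Pool.Agent.W666.GB.sn]
  ring

/-- The sign may be computed in any complex frame. -/
lemma sign_frame (e : OrthonormalBasis I3 ℝ V) (S : V → V → V → V → ℝ) (M : Matrix I3 I3 ℂ)
    (hM : M.det ≠ 0) (h : 0 ≤ GG (Hc M (cmp S e))) : 0 ≤ (-1) ^ 3 * gbc e S := by
  rw [gbc_cmp]
  have hπ := Real.pi_pos
  refine mul_nonneg (by positivity) ?_
  rw [GG_trans] at h
  have h1 : M.det * conj M.det = ((Complex.normSq M.det : ℝ) : ℂ) := Complex.mul_conj _
  rw [h1] at h
  have h2 := (Complex.le_def.1 h).1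
  rw [Complex.re_ofReal_mul, Complex.zero_re] at h2
  exact nonneg_of_mul_nonneg_right h2 (Complex.normSq_pos.2 hM)

/-- the matrix of a family of vectors -/
noncomputable def fm (e : OrthonormalBasis I3 ℝ V) (f : I3 → V) : Matrix I3 I3 ℂ :=
  fun a i => ((e.repr (f i) a : ℝ) : ℂ)

lemma Hc_real (e : OrthonormalBasis I3 ℝ V) {S : V → V → V → V → ℝ} (hS : AlgCurv S)
    (f : I3 → V) : Hc (fm e f) (cmp S e) = cmp S f := by
  funext i j k l
  have h := rq_eq hS e (fun a => e.repr (f i) a) (fun a => e.repr (f j) a)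
    (fun a => e.repr (f k) a) (fun a => e.repr (f l) a)
  simp only [vc_repr] at h
  unfold cmp
  rw [← h]
  unfold Hc rq fm
  push_cast
  simp only [Complex.conj_ofReal]

lemma fm_det (e : OrthonormalBasis I3 ℝ V) (b : Basis I3 ℝ V) : (fm e b).det ≠ 0 := by
  have h1 := e.toBasis.isUnit_det b
  rw [Basis.det_apply] at h1
  have h2 : fm e b = (e.toBasis.toMatrix b).map (algebraMap ℝ ℂ) := by
    ext a i
    simp [fm, Basis.toMatrix_apply]
  rw [h2, ← RingHom.mapMatrix_apply, ← RingHom.map_det]
  exact (map_ne_zero _).2 h1.ne_zero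

end

end Pool.Agent.K1H56.HB3
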