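import Pool.Agent.K1H56.HB3.Coord

/-!
# The double alternating sum of a tensor which respects a splitting `3 + 3`: positivity
-/

set_option autoImplicit false

namespace Pool.Agent.K1H56.HB3

open Finset Pool.Agent.TH598.GV
open scoped ComplexConjugate ComplexOrder

lemma qf_real {H : I3 → I3 → I3 → I3 → ℂ} (hH : HS H) (z w : I3 → ℂ) :
    (qf H z w).im = 0 := by
  have h : conj (qf H z w) = qf H z w := by
    unfold qf
    simp only [map_sum, map_mul, Complex.conj_conj]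
    have e : ∀ F : I3 → I3 → I3 → I3 → ℂ, ∑ i, ∑ j, ∑ i', ∑ j', F i j i' j' =
        ∑ i, ∑ j, ∑ i', ∑ j', F i' j' i j := by
      intro F
      calc ∑ i, ∑ j, ∑ i', ∑ j', F i j i' j' =
          ∑ a : I3 × I3, ∑ b : I3 × I3, F a.1 a.2 b.1 b.2 := by
            simp only [Fintype.sum_prod_type (α₁ := I3)]
        _ = ∑ b : I3 × I3, ∑ a : I3 × I3, F a.1 a.2 b.1 b.2 := Finset.sum_comm
        _ = _ := by simp only [Fintype.sum_prod_type (α₁ := I3)]
    rw [e]
    refine Finset.sum_congr rfl fun i _ => Finset.sum_congr rfl fun j _ =>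
      Finset.sum_congr rfl fun i' _ => Finset.sum_congr rfl fun j' _ => ?_
    rw [← hH.herm]
    ring
  exact Complex.conj_eq_iff_im.1 h

lemma qf_nonneg {H : I3 → I3 → I3 → I3 → ℂ} (hH : HS H) {z w : I3 → ℂ}
    (h : 0 ≤ (qf H z w).re) : 0 ≤ qf H z w := by
  rw [Complex.le_def]
  exact ⟨h, (qf_real hH z w).symm⟩

/-- A complex matrix with nonnegative quadratic form is positive semidefinite. -/
theorem psd_of_nonneg {κ : Type*} [Fintype κ] [DecidableEq κ] (M : Matrix κ κ ℂ)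
    (h : ∀ x : κ → ℂ, 0 ≤ star x ⬝ᵥ M.mulVec x) : M.PosSemidef := by
  have him : ∀ x : κ → ℂ, (star x ⬝ᵥ M.mulVec x).im = 0 := fun x =>
    ((Complex.le_def.mp (h x)).2).symm
  have hq : ∀ (i j : κ) (c : ℂ), star (Pi.single i 1 + c • Pi.single j 1 : κ → ℂ) ⬝ᵥ
      M.mulVec (Pi.single i 1 + c • Pi.single j 1)
      = M i i + c * M i j + star c * M j i + star c * c * M j j := by
    intro i j c
    rw [star_add, star_smul, Matrix.mulVec_add, Matrix.mulVec_smul, add_dotProduct,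
      dotProduct_add, dotProduct_add]
    simp only [smul_dotProduct, dotProduct_smul, Pi.star_single, star_one,
      single_one_dotProduct, Matrix.mulVec_single_one, smul_eq_mul, Matrix.col_apply]
    ring
  have hd : ∀ i, (M i i).im = 0 := by
    intro i
    have := him (Pi.single i 1)
    simpa [Pi.star_single] using this
  have hherm : M.IsHermitian := by
    ext i j
    rw [Matrix.conjTranspose_apply]
    have h1 := him (Pi.single j 1 + (1 : ℂ) • Pi.single i 1)
    have h2 := him (Pi.single j 1 + Complex.I • Pi.single i 1)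
    rw [hq] at h1 h2
    have hi := hd i
    have hj := hd j
    simp [Complex.add_im, Complex.mul_im, Complex.mul_re, hi, hj] at h1 h2
    apply Complex.ext
    · simp
      linarith
    · simp
      linarith
  exact Matrix.PosSemidef.of_dotProduct_mulVec_nonneg hherm h

/-- the vector of the first summand with coordinates `x` -/
def vA (x : Fin 3 → ℂ) : I3 → ℂ := fun i => if i.2 then 0 else x i.1

/-- the vector of the second summand with coordinates `x` -/
def vB (x : Fin 3 → ℂ) : I3 → ℂ := fun i => if i.2 then x i.1 else 0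

lemma qf_AB (H : I3 → I3 → I3 → I3 → ℂ) (x y : Fin 3 → ℂ) : qf H (vA x) (vB y) =
    ∑ i, ∑ j, ∑ k, ∑ l, H (i, false) (j, true) (k, false) (l, true) *
      (x i * y j * conj (x k) * conj (y l)) := by
  unfold qf vA vB
  simp [Fintype.sum_prod_type, Fintype.sum_bool]

lemma qf_AA (H : I3 → I3 → I3 → I3 → ℂ) (x y : Fin 3 → ℂ) : qf H (vA x) (vA y) =
    ∑ i, ∑ j, ∑ k, ∑ l, H (i, false) (j, false) (k, false) (l, false) *
      (x i * y j * conj (x k) * conj (y l)) := by
  unfold qf vA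
  simp [Fintype.sum_prod_type, Fintype.sum_bool]

lemma qf_BB (H : I3 → I3 → I3 → I3 → ℂ) (x y : Fin 3 → ℂ) : qf H (vB x) (vB y) =
    ∑ i, ∑ j, ∑ k, ∑ l, H (i, true) (j, true) (k, true) (l, true) *
      (x i * y j * conj (x k) * conj (y l)) := by
  unfold qf vB
  simp [Fintype.sum_prod_type, Fintype.sum_bool]

/-- the mixed block as a family of matrices -/
def Bm (H : I3 → I3 → I3 → I3 → ℂ) (i k : Fin 3) : Matrix (Fin 3) (Fin 3) ℂ :=
  fun a r => H (i, false) (a, true) (k, false) (r, true)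

lemma Z0_eq (H : I3 → I3 → I3 → I3 → ℂ) : Z0 H = 6 * H864R3.Phi6 (Bm H) := by
  have h1 : ∀ α β α' β' : S3, s4 (α, β) (α', β') *
      ∏ b : Fin 3, H (α b, false) (β b, true) (α' b, false) (β' b, true) =
      s4 (1, β * α⁻¹) (α' * α⁻¹, β' * α⁻¹) * ∏ b : Fin 3, H (b, false) ((β * α⁻¹) b, true)
        ((α' * α⁻¹) b, false) ((β' * α⁻¹) b, true) := by
    intro α β α' β'
    have e1 : s4 (1, β * α⁻¹) (α' * α⁻¹, β' * α⁻¹) = s4 (α, β) (α', β') := by
      have e2 : cs α⁻¹ = cs α := by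
        unfold cs
        rw [Equiv.Perm.sign_inv]
      have e3 : cs (1 : S3) = 1 := by
        unfold cs
        simp
      unfold s4
      simp only [cs_mul, e2, e3]
      linear_combination (cs α * cs β * (cs α' * cs β')) * cs_sq α
    rw [e1]
    congr 1
    rw [← Equiv.prod_comp α (fun b => H (b, false) ((β * α⁻¹) b, true)
        ((α' * α⁻¹) b, false) ((β' * α⁻¹) b, true))]
    refine Finset.prod_congr rfl fun b _ => ?_
    simp
  unfold Z0
  simp only [Fintype.sum_prod_type]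
  simp only [h1]
  have h2 : ∀ α : S3, ∑ β : S3, ∑ α' : S3, ∑ β' : S3,
      s4 (1, β * α⁻¹) (α' * α⁻¹, β' * α⁻¹) * ∏ b : Fin 3, H (b, false) ((β * α⁻¹) b, true)
        ((α' * α⁻¹) b, false) ((β' * α⁻¹) b, true) =
      ∑ β : S3, ∑ α' : S3, ∑ β' : S3, s4 (1, β) (α', β') *
        ∏ b : Fin 3, H (b, false) (β b, true) (α' b, false) (β' b, true) := by
    intro α
    refine Fintype.sum_equiv (Equiv.mulRight α⁻¹) _ _ fun β => ?_
    refine Fintype.sum_equiv (Equiv.mulRight α⁻¹) _ _ fun α' => ?_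
    refine Fintype.sum_equiv (Equiv.mulRight α⁻¹) _ _ fun β' => ?_
    simp only [Equiv.coe_mulRight]
  simp only [h2]
  rw [Finset.sum_const, Finset.card_univ, Fintype.card_perm]
  simp only [Fintype.card_fin, Nat.factorial, nsmul_eq_mul]
  push_cast
  have h3 : ∑ β : S3, ∑ α' : S3, ∑ β' : S3, s4 (1, β) (α', β') *
        ∏ b : Fin 3, H (b, false) (β b, true) (α' b, false) (β' b, true) =
      H864R3.Phi6 (Bm H) := by
    unfold H864R3.Phi6
    rw [Finset.sum_comm]
    refine Finset.sum_congr rfl fun σ _ => ?_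
    rw [Finset.mul_sum]
    refine Finset.sum_congr rfl fun α _ => ?_
    rw [Finset.mul_sum]
    refine Finset.sum_congr rfl fun ρ _ => ?_
    unfold s4 cs Bm
    simp
    ring
  rw [h3]

theorem Z0_nonneg {H : I3 → I3 → I3 → I3 → ℂ} (hH : HS H)
    (hM : ∀ x y : Fin 3 → ℂ, 0 ≤ (qf H (vA x) (vB y)).re) : 0 ≤ Z0 H := by
  rw [Z0_eq]
  refine mul_nonneg (by norm_num) (H864R3.core_nonneg fun ξ => ?_)
  refine psd_of_nonneg _ fun x => ?_
  have h1 : star x ⬝ᵥ (∑ i : Fin 3, ∑ j : Fin 3, (ξ i * star (ξ j)) • Bm H i j).mulVec x =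
      qf H (vA ξ) (vB (star x)) := by
    rw [qf_AB]
    simp only [dotProduct, Matrix.mulVec, Matrix.sum_apply, Matrix.smul_apply, smul_eq_mul, Bm,
      Pi.star_apply, Finset.mul_sum, Finset.sum_mul, RCLike.star_def, Complex.conj_conj]
    have e : ∀ F : Fin 3 → Fin 3 → Fin 3 → Fin 3 → ℂ, ∑ a, ∑ r, ∑ i, ∑ k, F a r i k =
        ∑ i, ∑ a, ∑ k, ∑ r, F a r i k := by
      intro F
      calc ∑ a, ∑ r, ∑ i, ∑ k, F a r i k = ∑ a, ∑ i, ∑ r, ∑ k, F a r i k :=
            Finset.sum_congr rfl fun a _ => Finset.sum_comm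
        _ = ∑ i, ∑ a, ∑ r, ∑ k, F a r i k := Finset.sum_comm
        _ = _ := Finset.sum_congr rfl fun i _ => Finset.sum_congr rfl fun a _ =>
            Finset.sum_comm
    rw [e]
    refine Finset.sum_congr rfl fun i _ => Finset.sum_congr rfl fun a _ =>
      Finset.sum_congr rfl fun k _ => Finset.sum_congr rfl fun r _ => ?_
    ring
  rw [h1]
  exact qf_nonneg hH (hM _ _)

/-- alternating sums over `S3` -/
lemma sum_alt3 (g : Fin 3 → Fin 3 → Fin 3 → ℂ) (hg : ∀ i j m, g j i m = - g i j m) :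
    ∑ α : S3, cs α * g (α 0) (α 1) (α 2) = 2 * ∑ m : Fin 3, g (m + 1) (m + 2) m := by
  rw [H864R3.sum_perm, Fin.sum_univ_three]
  have s1 : cs (1 : S3) = 1 := by simp [cs]
  have s2 : ∀ i j : Fin 3, i ≠ j → cs (Equiv.swap i j) = -1 := by
    intro i j h
    simp [cs, Equiv.Perm.sign_swap h]
  rw [cs_mul, cs_mul, s1, s2 0 1 (by decide), s2 0 2 (by decide), s2 1 2 (by decide)]
  have a1 : ((Equiv.swap 0 1 * Equiv.swap 1 2 : S3) 0) = 1 := by decide
  have a2 : ((Equiv.swap 0 1 * Equiv.swap 1 2 : S3) 1) = 2 := by decide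
  have a3 : ((Equiv.swap 0 1 * Equiv.swap 1 2 : S3) 2) = 0 := by decide
  have b1 : ((Equiv.swap 1 2 * Equiv.swap 0 1 : S3) 0) = 2 := by decide
  have b2 : ((Equiv.swap 1 2 * Equiv.swap 0 1 : S3) 1) = 0 := by decide
  have b3 : ((Equiv.swap 1 2 * Equiv.swap 0 1 : S3) 2) = 1 := by decide
  have c1 : (Equiv.swap 0 1 : S3) 0 = 1 := by decide
  have c2 : (Equiv.swap 0 1 : S3) 1 = 0 := by decide
  have c3 : (Equiv.swap 0 1 : S3) 2 = 2 := by decide
  have d1 : (Equiv.swap 0 2 : S3) 0 = 2 := by decide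
  have d2 : (Equiv.swap 0 2 : S3) 1 = 1 := by decide
  have d3 : (Equiv.swap 0 2 : S3) 2 = 0 := by decide
  have f1 : (Equiv.swap 1 2 : S3) 0 = 0 := by decide
  have f2 : (Equiv.swap 1 2 : S3) 1 = 2 := by decide
  have f3 : (Equiv.swap 1 2 : S3) 2 = 1 := by decide
  rw [a1, a2, a3, b1, b2, b3, c1, c2, c3, d1, d2, d3, f1, f2, f3]
  simp only [Equiv.Perm.one_apply]
  have k1 : (0 : Fin 3) + 1 = 1 := rfl
  have k2 : (0 : Fin 3) + 2 = 2 := rfl
  have k3 : (1 : Fin 3) + 1 = 2 := rfl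
  have k4 : (1 : Fin 3) + 2 = 0 := rfl
  have k5 : (2 : Fin 3) + 1 = 0 := rfl
  have k6 : (2 : Fin 3) + 2 = 1 := rfl
  rw [k1, k2, k3, k4, k5, k6, hg 0 1 2, hg 1 2 0, hg 2 0 1]
  ring

/-- the pure block as a matrix -/
def St (H : I3 → I3 → I3 → I3 → ℂ) (c : Bool) : Matrix (Fin 3) (Fin 3) ℂ :=
  fun m m' => H (m + 1, c) (m + 2, c) (m' + 1, c) (m' + 2, c)

lemma sum_star {H : I3 → I3 → I3 → I3 → ℂ} (hH : HS H) (c : Bool) (f : Fin 3 → Fin 3 → ℂ) :
    ∑ α : S3, ∑ α' : S3, cs α * cs α' *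
      (H (α 0, c) (α 1, c) (α' 0, c) (α' 1, c) * f (α 2) (α' 2)) =
    4 * ∑ m, ∑ m', St H c m m' * f m m' := by
  have h1 : ∀ α : S3, ∑ α' : S3, cs α * cs α' *
      (H (α 0, c) (α 1, c) (α' 0, c) (α' 1, c) * f (α 2) (α' 2)) =
      cs α * (2 * ∑ m' : Fin 3, H (α 0, c) (α 1, c) (m' + 1, c) (m' + 2, c) * f (α 2) m') := by
    intro α
    rw [← sum_alt3 (fun i j m => H (α 0, c) (α 1, c) (i, c) (j, c) * f (α 2) m)
      (fun i j m => by rw [alt2 hH]; ring), Finset.mul_sum]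
    exact Finset.sum_congr rfl fun α' _ => by ring
  simp only [h1]
  rw [sum_alt3 (fun i j m => 2 * ∑ m' : Fin 3, H (i, c) (j, c) (m' + 1, c) (m' + 2, c) * f m m')
    (fun i j m => by
      simp only [hH.alt (i, c) (j, c), neg_mul, Finset.sum_neg_distrib, mul_neg])]
  unfold St
  simp only [Finset.mul_sum]
  exact Finset.sum_congr rfl fun m _ => Finset.sum_congr rfl fun m' _ => by ring

lemma Z1_eq {H : I3 → I3 → I3 → I3 → ℂ} (hH : HS H) : Z1 H =
    16 * ∑ m, ∑ m', ∑ n, ∑ n', St H false m m' * St H true n n' *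
      H (m, false) (n, true) (m', false) (n', true) := by
  have h1 : Z1 H = ∑ α : S3, ∑ α' : S3, cs α * cs α' *
      (H (α 0, false) (α 1, false) (α' 0, false) (α' 1, false) *
        (∑ β : S3, ∑ β' : S3, cs β * cs β' *
          (H (β 0, true) (β 1, true) (β' 0, true) (β' 1, true) *
            H (α 2, false) (β 2, true) (α' 2, false) (β' 2, true)))) := by
    unfold Z1
    simp only [Fintype.sum_prod_type]
    have e : ∀ F : S3 → S3 → S3 → S3 → ℂ, ∑ α, ∑ β, ∑ α', ∑ β', F α β α' β' =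
        ∑ α, ∑ α', ∑ β, ∑ β', F α β α' β' := fun F =>
      Finset.sum_congr rfl fun α _ => Finset.sum_comm
    rw [e]
    refine Finset.sum_congr rfl fun α _ => Finset.sum_congr rfl fun α' _ => ?_
    simp only [Finset.mul_sum]
    refine Finset.sum_congr rfl fun β _ => Finset.sum_congr rfl fun β' _ => ?_
    unfold s4
    ring
  have h2 : ∀ m m' : Fin 3, (∑ β : S3, ∑ β' : S3, cs β * cs β' *
          (H (β 0, true) (β 1, true) (β' 0, true) (β' 1, true) *
            H (m, false) (β 2, true) (m', false) (β' 2, true))) =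
      4 * ∑ n, ∑ n', St H true n n' * H (m, false) (n, true) (m', false) (n', true) :=
    fun m m' => sum_star hH true (fun n n' => H (m, false) (n, true) (m', false) (n', true))
  have h3 := sum_star hH false (fun m m' => 4 * ∑ n, ∑ n', St H true n n' *
    H (m, false) (n, true) (m', false) (n', true))
  rw [h1]
  simp only [h2]
  refine h3.trans ?_
  simp only [Finset.mul_sum]
  exact Finset.sum_congr rfl fun m _ => Finset.sum_congr rfl fun m' _ =>
    Finset.sum_congr rfl fun n _ => Finset.sum_congr rfl fun n' _ => by ring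

/-- every vector of `K³` is a cross product -/
lemma cross {K : Type} [Field K] (x : Fin 3 → K) : ∃ z w : Fin 3 → K, ∀ m : Fin 3,
    z (m + 1) * w (m + 2) - z (m + 2) * w (m + 1) = x m := by
  have k1 : (0 : Fin 3) + 1 = 1 := rfl
  have k2 : (0 : Fin 3) + 2 = 2 := rfl
  have k3 : (1 : Fin 3) + 1 = 2 := rfl
  have k4 : (1 : Fin 3) + 2 = 0 := rfl
  have k5 : (2 : Fin 3) + 1 = 0 := rfl
  have k6 : (2 : Fin 3) + 2 = 1 := rfl
  by_cases h2 : x 2 = 0
  · by_cases h1 : x 1 = 0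
    · refine ⟨![0, x 0, 0], ![0, 0, 1], fun m => ?_⟩
      fin_cases m <;> simp [k1, k2, k3, k4, k5, k6, h1, h2]
    · refine ⟨![-x 1, x 0, 0], ![0, 0, 1], fun m => ?_⟩
      fin_cases m <;> simp [k1, k2, k3, k4, k5, k6, h2]
  · refine ⟨![x 2, 0, -x 0], ![0, 1, -x 1 / x 2], fun m => ?_⟩
    fin_cases m
    · simp [k1, k2]
    · simp [k3, k4]
      field_simp
    · simp [k5, k6]

/-- reduction of a sum over pairs -/
lemma sum_pairs {K : Type} [Field K] [CharZero K] (F : Fin 3 → Fin 3 → K)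
    (hF : ∀ i j, F j i = - F i j) (a b : Fin 3 → K) :
    ∑ i, ∑ j, F i j * (a i * b j) =
      ∑ m : Fin 3, F (m + 1) (m + 2) * (a (m + 1) * b (m + 2) - a (m + 2) * b (m + 1)) := by
  have k1 : (0 : Fin 3) + 1 = 1 := rfl
  have k2 : (0 : Fin 3) + 2 = 2 := rfl
  have k3 : (1 : Fin 3) + 1 = 2 := rfl
  have k4 : (1 : Fin 3) + 2 = 0 := rfl
  have k5 : (2 : Fin 3) + 1 = 0 := rfl
  have k6 : (2 : Fin 3) + 2 = 1 := rfl
  have h0 : ∀ i, F i i = 0 := fun i => by
    have := hF i i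
    linear_combination this / 2
  simp only [Fin.sum_univ_three, k1, k2, k3, k4, k5, k6, h0]
  rw [hF 0 1, hF 1 2, hF 2 0]
  ring

/-- the vector of a summand with coordinates `x` -/
def vC (c : Bool) (x : Fin 3 → ℂ) : I3 → ℂ := if c then vB x else vA x

lemma St_psd {H : I3 → I3 → I3 → I3 → ℂ} (hH : HS H) (c : Bool)
    (hP : ∀ x y : Fin 3 → ℂ, 0 ≤ (qf H (vC c x) (vC c y)).re) : (St H c).PosSemidef := by
  refine psd_of_nonneg _ fun x => ?_
  obtain ⟨z, w, hzw⟩ := cross (star x)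
  have key : star x ⬝ᵥ (St H c).mulVec x = ∑ i, ∑ j, ∑ k, ∑ l,
      H (i, c) (j, c) (k, c) (l, c) * (z i * w j * conj (z k) * conj (w l)) := by
    have e1 : ∀ i j, ∑ k, ∑ l, H (i, c) (j, c) (k, c) (l, c) *
        (z i * w j * conj (z k) * conj (w l)) =
        (∑ m' : Fin 3, H (i, c) (j, c) (m' + 1, c) (m' + 2, c) * x m') * (z i * w j) := by
      intro i j
      have e2 := sum_pairs (fun k l => H (i, c) (j, c) (k, c) (l, c))
        (fun k l => alt2 hH _ _ _ _) (fun k => conj (z k)) (fun l => conj (w l))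
      have e3 : ∀ m : Fin 3, conj (z (m + 1)) * conj (w (m + 2)) -
          conj (z (m + 2)) * conj (w (m + 1)) = x m := by
        intro m
        have := congrArg conj (hzw m)
        simp only [map_sub, map_mul, Pi.star_apply, RCLike.star_def, Complex.conj_conj] at this
        exact this
      simp only [e3] at e2
      rw [← e2]
      simp only [Finset.sum_mul]
      exact Finset.sum_congr rfl fun k _ => Finset.sum_congr rfl fun l _ => by ring
    simp only [e1]
    rw [sum_pairs (fun i j => ∑ m' : Fin 3, H (i, c) (j, c) (m' + 1, c) (m' + 2, c) * x m')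
      (fun i j => by simp only [hH.alt (i, c) (j, c), neg_mul, Finset.sum_neg_distrib]) z w]
    simp only [dotProduct, Matrix.mulVec, hzw, St]
    exact Finset.sum_congr rfl fun m _ => by ring
  rw [key]
  cases c
  · rw [← qf_AA]
    exact qf_nonneg hH (hP z w)
  · rw [← qf_BB]
    exact qf_nonneg hH (hP z w)

section

open scoped MatrixOrder Matrix.Norms.L2Operator

lemma factor {A : Matrix (Fin 3) (Fin 3) ℂ} (hA : A.PosSemidef) :
    ∃ D : Matrix (Fin 3) (Fin 3) ℂ, ∀ i j, A i j = ∑ r, conj (D r i) * D r j := by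
  obtain ⟨D, hD⟩ := CStarAlgebra.nonneg_iff_eq_star_mul_self.mp hA.nonneg
  refine ⟨D, fun i j => ?_⟩
  rw [hD, Matrix.mul_apply]
  rfl

end

theorem Z1_nonneg {H : I3 → I3 → I3 → I3 → ℂ} (hH : HS H)
    (hM : ∀ x y : Fin 3 → ℂ, 0 ≤ (qf H (vA x) (vB y)).re)
    (hA : (St H false).PosSemidef) (hB : (St H true).PosSemidef) : 0 ≤ Z1 H := by
  obtain ⟨D, hD⟩ := factor hA
  obtain ⟨E, hE⟩ := factor hB
  rw [Z1_eq hH]
  refine mul_nonneg (by norm_num) ?_
  have h1 : ∑ m, ∑ m', ∑ n, ∑ n', St H false m m' * St H true n n' *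
      H (m, false) (n, true) (m', false) (n', true) =
      ∑ r, ∑ s, qf H (vA fun m => conj (D s m)) (vB fun n => conj (E r n)) := by
    simp only [qf_AB, hD, hE, Complex.conj_conj, Finset.sum_mul, Finset.mul_sum]
    have e : ∀ F : Fin 3 → Fin 3 → Fin 3 → Fin 3 → Fin 3 → Fin 3 → ℂ,
        ∑ m, ∑ m', ∑ n, ∑ n', ∑ r, ∑ s, F m m' n n' r s =
        ∑ r, ∑ s, ∑ m, ∑ n, ∑ m', ∑ n', F m m' n n' r s := by
      intro F
      calc ∑ m, ∑ m', ∑ n, ∑ n', ∑ r, ∑ s, F m m' n n' r s =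
            ∑ a : Fin 3 × Fin 3 × Fin 3 × Fin 3, ∑ b : Fin 3 × Fin 3,
              F a.1 a.2.1 a.2.2.1 a.2.2.2 b.1 b.2 := by
              simp only [Fintype.sum_prod_type]
        _ = ∑ b : Fin 3 × Fin 3, ∑ a : Fin 3 × Fin 3 × Fin 3 × Fin 3,
              F a.1 a.2.1 a.2.2.1 a.2.2.2 b.1 b.2 := Finset.sum_comm
        _ = ∑ r, ∑ s, ∑ m, ∑ m', ∑ n, ∑ n', F m m' n n' r s := by
              simp only [Fintype.sum_prod_type]
        _ = _ := Finset.sum_congr rfl fun r _ => Finset.sum_congr rfl fun s _ =>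
              Finset.sum_congr rfl fun m _ => Finset.sum_comm
    rw [e]
    refine Finset.sum_congr rfl fun r _ => Finset.sum_congr rfl fun s _ =>
      Finset.sum_congr rfl fun m _ => Finset.sum_congr rfl fun n _ =>
      Finset.sum_congr rfl fun m' _ => Finset.sum_congr rfl fun n' _ => ?_
    ring
  rw [h1]
  exact Finset.sum_nonneg fun r _ => Finset.sum_nonneg fun s _ =>
    qf_nonneg hH (hM _ _)

/-- **The coordinate theorem.** -/
theorem GG_nonneg {H : I3 → I3 → I3 → I3 → ℂ} (hH : HS H) (hB : Blk H)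
    (hM : ∀ x y : Fin 3 → ℂ, 0 ≤ (qf H (vA x) (vB y)).re)
    (h0 : (St H false).PosSemidef) (h1 : (St H true).PosSemidef) : 0 ≤ GG H := by
  rw [GG_split hH hB]
  exact add_nonneg (mul_nonneg (by norm_num) (Z0_nonneg hH hM))
    (mul_nonneg (by norm_num) (Z1_nonneg hH hM h0 h1))

end Pool.Agent.K1H56.HB3
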